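import Pool.Agent.W555.TC.Orb

set_option autoImplicit false
set_option maxHeartbeats 1000000

namespace Pool.Agent.W555.TC
open Function

section signed

variable {Y : Type*} [DecidableEq Y] (Φ : Y → Y) (sp sm : Y → Prop)
  (hfin : ∀ n : ℕ, 0 < n → {z | IsPeriodicPt Φ n z}.Finite)
  (hsp : ∀ z, sp z → sp (Φ z)) (hsm : ∀ z, sm z → sm (Φ z)) (hdis : ∀ z, ¬ (sp z ∧ sm z))

include hfin in
lemma ncard_or (A B : Y → Prop) {d : ℕ} (hd : 0 < d) (hAB : ∀ z, ¬ (A z ∧ B z)) :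
    {z | minimalPeriod Φ z = d ∧ (A z ∨ B z)}.ncard
      = {z | minimalPeriod Φ z = d ∧ A z}.ncard + {z | minimalPeriod Φ z = d ∧ B z}.ncard := by
  have hF : ∀ A : Y → Prop, {z | minimalPeriod Φ z = d ∧ A z}.Finite := by
    intro A
    apply (hfin d hd).subset
    rintro z ⟨h, _⟩
    show IsPeriodicPt Φ d z
    rw [← h]; exact isPeriodicPt_minimalPeriod Φ z
  rw [← Set.ncard_union_eq _ (hF A) (hF B)]
  · congr 1
    ext z
    simp only [Set.mem_union, Set.mem_setOf_eq]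
    tauto
  · rw [Set.disjoint_left]
    rintro z ⟨_, h1⟩ ⟨_, h2⟩
    exact hAB z ⟨h1, h2⟩

include hfin hsp hsm hdis

/-- number of split points -/
lemma plus_count (l : ℕ) {n : ℕ} (hn : 0 < n) :
    {z | IsPeriodicPt Φ n z ∧ (sp z ∨ (sm z ∧ l ∣ (n / minimalPeriod Φ z)))}.ncard
      = ∑ d ∈ n.divisors, (d * orb Φ sp d + if l ∣ (n / d) then d * orb Φ sm d else 0) := by
  have := ncard_sum Φ hfin (fun d z => sp z ∨ (sm z ∧ l ∣ (n / d))) hn
  rw [this]
  apply Finset.sum_congr rfl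
  intro d hd
  have hd0 : 0 < d := Nat.pos_of_mem_divisors hd
  rw [ncard_or Φ hfin sp (fun z => sm z ∧ l ∣ (n / d)) hd0
    (fun z h => hdis z ⟨h.1, h.2.1⟩), ncard_eq Φ sp hfin hsp hd0]
  congr 1
  split_ifs with h
  · rw [← ncard_eq Φ sm hfin hsm hd0]
    congr 1
    ext z
    simp only [Set.mem_setOf_eq]
    tauto
  · have e : {z | minimalPeriod Φ z = d ∧ sm z ∧ l ∣ (n / d)} = ∅ := by
      ext z
      simp only [Set.mem_setOf_eq, Set.mem_empty_iff_false, iff_false]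
      tauto
    rw [e, Set.ncard_empty]

/-- number of all points -/
lemma all_count {n : ℕ} (hn : 0 < n) :
    {z | IsPeriodicPt Φ n z ∧ (sp z ∨ sm z)}.ncard
      = ∑ d ∈ n.divisors, (d * orb Φ sp d + d * orb Φ sm d) := by
  have := ncard_sum Φ hfin (fun d z => sp z ∨ sm z) hn
  rw [this]
  apply Finset.sum_congr rfl
  intro d hd
  have hd0 : 0 < d := Nat.pos_of_mem_divisors hd
  rw [ncard_or Φ hfin sp sm hd0 hdis, ncard_eq Φ sp hfin hsp hd0,
    ncard_eq Φ sm hfin hsm hd0]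

/-- all points minus `l` times the split points -/
lemma signed_count (l : ℕ) {n : ℕ} (hn : 0 < n) :
    ({z | IsPeriodicPt Φ n z ∧ (sp z ∨ sm z)}.ncard : ℤ)
      - l * ({z | IsPeriodicPt Φ n z ∧ (sp z ∨ (sm z ∧ l ∣ (n / minimalPeriod Φ z)))}.ncard : ℤ)
      = -∑ d ∈ n.divisors, (d : ℤ) * (((l : ℤ) - 1) * orb Φ sp d
        + ((if l ∣ n / d then (l : ℤ) else 0) - 1) * orb Φ sm d) := by
  rw [all_count Φ sp sm hfin hsp hsm hdis hn, plus_count Φ sp sm hfin hsp hsm hdis l hn]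
  push_cast
  rw [Finset.mul_sum, ← Finset.sum_sub_distrib, ← Finset.sum_neg_distrib]
  apply Finset.sum_congr rfl
  intro d _
  split_ifs with h
  · ring
  · ring

end signed

end Pool.Agent.W555.TC
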