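import Pool.Agent.W555.TC.Sgn

set_option autoImplicit false
set_option maxHeartbeats 1000000

namespace Pool.Agent.W555.TC
open Function

section cov

variable {k : Type*} [Field k] [Fintype k] {K : Type*} [Field K] [Algebra k K]
  {r : ℕ} (F : MvPolynomial (Fin (r + 1)) k)

/-- the points over the extension of degree `n` of the hypersurface -/
def Bn (n : ℕ) : Set (Fin (r + 1) → K) :=
  {v | IsPeriodicPt (Phi k K) n v ∧ (Nrm v ∧ ev F v = 0)}

/-- the points over the extension of degree `n` of the cyclic cover -/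
def Dn (l n : ℕ) : Set ((Fin (r + 1) → K) × K) :=
  {p | Nrm p.1 ∧ IsPeriodicPt (Phi k K) n p.1 ∧ (fr k K)^[n] p.2 = p.2 ∧ p.2 ^ l = ev F p.1}

lemma finB {n : ℕ} (hn : 0 < n) : (Bn F n : Set (Fin (r + 1) → K)).Finite :=
  (fix_finite k K hn).subset fun _ h => h.1

lemma finU {n : ℕ} (hn : 0 < n) : (Un F n : Set (Fin (r + 1) → K)).Finite :=
  (fix_finite k K hn).subset fun _ h => h.1

lemma finS (l : ℕ) {n : ℕ} (hn : 0 < n) : (Sn F l n : Set (Fin (r + 1) → K)).Finite :=
  (fix_finite k K hn).subset fun _ h => h.1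

/-- projective space is the union of the hypersurface and its complement -/
lemma card_An {n : ℕ} (hn : 0 < n) :
    (An k K r n).ncard
      = (Bn F n : Set (Fin (r + 1) → K)).ncard + (Un F n : Set (Fin (r + 1) → K)).ncard := by
  rw [← Set.ncard_union_eq _ (finB F hn) (finU F hn)]
  · congr 1
    ext v
    simp only [An, Bn, Un, Set.mem_union, Set.mem_setOf_eq]
    tauto
  · rw [Set.disjoint_left]
    rintro v ⟨_, _, h⟩ ⟨_, _, h'⟩
    exact h' h

variable {l : ℕ} [hlp : Fact l.Prime]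

include k hlp in
lemma l_ne_zero (hq : l ∣ Fintype.card k - 1) : ((l : ℕ) : K) ≠ 0 := by
  intro h
  have h1 : algebraMap k K ((l : ℕ) : k) = 0 := by rw [map_natCast]; exact h
  have h2 : ((l : ℕ) : k) = 0 := (map_eq_zero (algebraMap k K)).mp h1
  have h3 : ((Fintype.card k : ℕ) : k) = 0 := FiniteField.cast_card_eq_zero k
  obtain ⟨t, ht⟩ := hq
  have h4 : Fintype.card k = l * t + 1 := by
    have : 0 < Fintype.card k := Fintype.card_pos
    omega
  rw [h4] at h3
  push_cast at h3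
  rw [h2] at h3
  simp at h3

include k in
lemma mu_card [IsAlgClosed K] (hq : l ∣ Fintype.card k - 1) : {z : K | z ^ l = 1}.ncard = l := by
  have : NeZero ((l : ℕ) : K) := ⟨l_ne_zero (k := k) hq⟩
  obtain ⟨z, hz⟩ := HasEnoughRootsOfUnity.exists_primitiveRoot K l
  have h1 := hz.card_nthRootsFinset
  rw [← Set.ncard_coe_finset] at h1
  refine Eq.trans ?_ h1
  congr 1
  ext x
  rw [Finset.mem_coe, Polynomial.mem_nthRootsFinset hlp.out.pos]
  rfl

include k in
lemma mu_finite [IsAlgClosed K] (hq : l ∣ Fintype.card k - 1) : {z : K | z ^ l = 1}.Finite := by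
  apply Set.finite_of_ncard_ne_zero
  rw [mu_card (k := k) hq]
  exact hlp.out.ne_zero

/-- points of the cover: one over each branch point and `l` over each split point -/
lemma card_Dn [IsAlgClosed K] (hq : l ∣ Fintype.card k - 1) {n : ℕ} (hn : 0 < n) :
    (Dn F l n : Set ((Fin (r + 1) → K) × K)).ncard
      = (Bn F n : Set (Fin (r + 1) → K)).ncard
        + l * (Sn F l n : Set (Fin (r + 1) → K)).ncard := by
  classical
  have hl0 : l ≠ 0 := hlp.out.ne_zero
  have hch : ∀ v : Fin (r + 1) → K, ∃ y : K, v ∈ (Sn F l n : Set (Fin (r + 1) → K)) →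
      (y ^ l = ev F v ∧ (fr k K)^[n] y = y) := by
    intro v
    by_cases h : v ∈ (Sn F l n : Set (Fin (r + 1) → K))
    · obtain ⟨y, hy⟩ := h.2.2
      exact ⟨y, fun _ => hy⟩
    · exact ⟨0, fun h' => (h h').elim⟩
  choose y hy using hch
  have hy0 : ∀ v ∈ (Sn F l n : Set (Fin (r + 1) → K)), y v ≠ 0 := by
    intro v hv h0
    apply hv.2.1.2
    rw [← (hy v hv).1, h0, zero_pow hl0]
  have e : (Dn F l n : Set ((Fin (r + 1) → K) × K))
      = ((fun v => (v, (0 : K))) '' Bn F n)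
        ∪ ((fun p : K × (Fin (r + 1) → K) => (p.2, p.1 * y p.2)) ''
          ({z : K | z ^ l = 1} ×ˢ Sn F l n)) := by
    ext ⟨v, w⟩
    simp only [Dn, Set.mem_setOf_eq, Set.mem_union, Set.mem_image, Prod.mk.injEq, Set.mem_prod,
      Prod.exists]
    constructor
    · rintro ⟨h1, h2, h3, h4⟩
      by_cases h0 : ev F v = 0
      · left
        refine ⟨v, ⟨h2, h1, h0⟩, rfl, ?_⟩
        rw [h0] at h4
        exact ((pow_eq_zero_iff hl0).mp h4).symm
      · right
        have hS : v ∈ (Sn F l n : Set (Fin (r + 1) → K)) := ⟨h2, ⟨h1, h0⟩, w, h4, h3⟩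
        refine ⟨w / y v, v, ⟨?_, hS⟩, rfl, ?_⟩
        · rw [div_pow, h4, (hy v hS).1, div_self h0]
        · rw [div_mul_cancel₀ _ (hy0 v hS)]
    · rintro (⟨v', h, rfl, rfl⟩ | ⟨z, v', ⟨hz, h⟩, rfl, rfl⟩)
      · refine ⟨h.2.1, h.1, ?_, ?_⟩
        · rw [fr_iter]
          have : Fintype.card k ^ n ≠ 0 := pow_ne_zero _ Fintype.card_ne_zero
          exact zero_pow this
        · rw [h.2.2, zero_pow hl0]
      · refine ⟨h.2.1.1, h.1, ?_, ?_⟩
        · rw [fr_iter_mul, mu_fix hq hz, (hy _ h).2]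
        · rw [mul_pow, hz, one_mul, (hy _ h).1]
  have f0 := mu_finite (K := K) hq
  have f1 : ((fun v => (v, (0 : K))) '' Bn F n : Set ((Fin (r + 1) → K) × K)).Finite :=
    (finB F hn).image _
  have f2 : ((fun p : K × (Fin (r + 1) → K) => (p.2, p.1 * y p.2)) ''
          ({z : K | z ^ l = 1} ×ˢ Sn F l n)).Finite := (f0.prod (finS F l hn)).image _
  have hdisj : Disjoint ((fun v => (v, (0 : K))) '' Bn F n)
      ((fun p : K × (Fin (r + 1) → K) => (p.2, p.1 * y p.2)) ''
          ({z : K | z ^ l = 1} ×ˢ Sn F l n)) := by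
    rw [Set.disjoint_left]
    rintro _ ⟨v, hv, rfl⟩ ⟨⟨z, v'⟩, ⟨hz, hv'⟩, h⟩
    obtain ⟨h1, h2⟩ := Prod.mk.inj h
    have hz0 : z ≠ 0 := by
      intro h0
      have hz' : z ^ l = 1 := hz
      rw [h0, zero_pow hl0] at hz'
      exact zero_ne_one hz'
    exact mul_ne_zero hz0 (hy0 _ hv') h2
  rw [e, Set.ncard_union_eq hdisj f1 f2, Set.ncard_image_of_injective, Set.ncard_image_of_injOn,
    Set.ncard_prod, mu_card (k := k) hq]
  · rintro ⟨z, v⟩ ⟨_, hv⟩ ⟨z', v'⟩ ⟨_, _⟩ h
    obtain ⟨h1, h2⟩ := Prod.mk.inj h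
    subst h1
    exact Prod.ext (mul_right_cancel₀ (hy0 _ hv) h2) rfl
  · intro a b h; exact (Prod.mk.inj h).1

end cov

end Pool.Agent.W555.TC
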