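import Mathlib

set_option autoImplicit false
set_option maxHeartbeats 1000000

namespace Pool.Agent.W555.TC
open Polynomial

lemma comp_mul_X_dvd {L : Type*} [Field L] {a : L} (ha : a ≠ 0) (P Q : L[X]) :
    P.comp (C a * X) ∣ Q.comp (C a * X) ↔ P ∣ Q := by
  have hinv : Invertible a := invertibleOfNonzero ha
  have h := map_dvd_iff (algEquivCMulXAddC a 0) (a := P) (b := Q)
  simpa [comp_eq_aeval] using h

lemma comp_comp_inv {L : Type*} [Field L] {a : L} (ha : a ≠ 0) (P : L[X]) :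
    (P.comp (C a⁻¹ * X)).comp (C a * X) = P := by
  rw [comp_assoc, mul_comp, C_comp, X_comp, ← mul_assoc, ← C_mul, inv_mul_cancel₀ ha, C_1,
    one_mul, comp_X]

lemma X_sub_C_scale {L : Type*} [Field L] {a : L} (ha : a ≠ 0) (x : L) (n : ℕ) :
    ((X - C (a * x)) ^ n).comp (C a * X) = C a ^ n * (X - C x) ^ n := by
  rw [pow_comp, sub_comp, X_comp, C_comp, ← mul_pow, mul_sub, ← C_mul]

/-- scaling a polynomial scales its roots -/
lemma mult_scale {L : Type*} [Field L] {a : L} (ha : a ≠ 0) {P : L[X]} (hP : P ≠ 0) (x : L) :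
    rootMultiplicity x (P.comp (C a * X)) = rootMultiplicity (a * x) P := by
  have hP' : P.comp (C a * X) ≠ 0 := by
    intro h
    apply hP
    have h1 : (0 : L[X]).comp (C a * X) ∣ P.comp (C a * X) := by rw [h, zero_comp]
    rw [comp_mul_X_dvd ha] at h1
    exact zero_dvd_iff.mp h1
  have key : ∀ n : ℕ, n ≤ rootMultiplicity x (P.comp (C a * X)) ↔
      n ≤ rootMultiplicity (a * x) P := by
    intro n
    rw [le_rootMultiplicity_iff hP', le_rootMultiplicity_iff hP,
      ← comp_mul_X_dvd ha ((X - C (a * x)) ^ n) P, X_sub_C_scale ha]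
    have hu : IsUnit (C a ^ n) := (isUnit_C.mpr (isUnit_iff_ne_zero.mpr ha)).pow n
    exact (hu.mul_left_dvd).symm
  apply le_antisymm
  · exact (key _).mp le_rfl
  · exact (key _).mpr le_rfl

lemma prim_of_coeff_zero {P : ℤ[X]} (h : IsUnit (P.coeff 0)) : P.IsPrimitive := by
  intro r hr
  rw [C_dvd_iff_dvd_coeff] at hr
  exact isUnit_of_dvd_unit (hr 0) h

section cyc

variable (l : ℕ) [hlp : Fact l.Prime]

lemma cyc_mod : cyclotomic l (ZMod l) = (X - 1) ^ (l - 1) := by
  have h1 : cyclotomic l (ZMod l) * (X - 1) = X ^ l - 1 := cyclotomic_prime_mul_X_sub_one _ l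
  have h2 : (X ^ l - 1 : (ZMod l)[X]) = (X - 1) ^ l := by
    rw [sub_pow_char, one_pow]
  have hne : (X - 1 : (ZMod l)[X]) ≠ 0 := X_sub_C_ne_zero 1
  apply mul_right_cancel₀ hne
  rw [h1, h2, ← pow_succ, Nat.sub_add_cancel hlp.out.one_le]

lemma cop : IsCoprime (X - C (1 : ℚ)) (cyclotomic l ℚ) := by
  rw [(irreducible_X_sub_C (1 : ℚ)).coprime_iff_not_dvd, dvd_iff_isRoot]
  intro h
  have h1 : eval 1 (cyclotomic l ℚ) = (l : ℚ) := eval_one_cyclotomic_prime
  rw [IsRoot, h1] at h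
  exact hlp.out.ne_zero (by exact_mod_cast h)

/-- multiplicities of `1/A` and `z/A` of an integral polynomial are bounded by the multiplicity of
`1` of the reduction modulo `l` -/
theorem mult_bound {P : ℤ[X]} (hP : P.coeff 0 = 1) {A : ℕ} (hA0 : A ≠ 0)
    (hA : ((A : ℕ) : ZMod l) = 1) :
    ∃ M : ℕ, (∀ z : ℂ, IsPrimitiveRoot z l →
        rootMultiplicity ((A : ℂ)⁻¹ * z) (P.map (Int.castRingHom ℂ)) = M) ∧
      rootMultiplicity ((A : ℚ)⁻¹) (P.map (Int.castRingHom ℚ)) + (l - 1) * M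
        ≤ rootMultiplicity 1 (P.map (Int.castRingHom (ZMod l))) := by
  have hl1 : 1 < l := hlp.out.one_lt
  have hAQ : (A : ℚ) ≠ 0 := by exact_mod_cast hA0
  have hAC : (A : ℂ) ≠ 0 := by exact_mod_cast hA0
  have hAQ' : (A : ℚ)⁻¹ ≠ 0 := inv_ne_zero hAQ
  set PQ : ℚ[X] := P.map (Int.castRingHom ℚ) with hPQ
  have hPQ0 : PQ ≠ 0 := by
    intro h
    have h1 := congrArg (fun f : ℚ[X] => f.coeff 0) h
    simp [hPQ, coeff_map, hP] at h1
  set P' : ℚ[X] := PQ.comp (C (A : ℚ)⁻¹ * X) with hP'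
  have hP'0 : P' ≠ 0 := by
    intro h
    apply hPQ0
    have h1 := comp_comp_inv hAQ PQ
    rw [← h1, ← hP', h, zero_comp]
  have hirr : Irreducible (cyclotomic l ℚ) := cyclotomic.irreducible_rat hlp.out.pos
  have hfin : FiniteMultiplicity (cyclotomic l ℚ) P' :=
    FiniteMultiplicity.of_not_isUnit hirr.not_isUnit hP'0
  obtain ⟨S, hS, hnS⟩ := hfin.exists_eq_pow_mul_and_not_dvd
  set M := multiplicity (cyclotomic l ℚ) P' with hM
  refine ⟨M, ?_, ?_⟩
  · intro z hz
    have hmin : cyclotomic l ℚ = minpoly ℚ z := cyclotomic_eq_minpoly_rat hz hlp.out.pos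
    have hSC : ¬ IsRoot (S.map (algebraMap ℚ ℂ)) z := by
      intro h
      apply hnS
      rw [hmin]
      apply minpoly.dvd
      rw [aeval_def, ← eval_map]
      exact h
    have hPC : P.map (Int.castRingHom ℂ) = PQ.map (algebraMap ℚ ℂ) := by
      rw [hPQ, Polynomial.map_map]
      congr 1
    have hPC0 : PQ.map (algebraMap ℚ ℂ) ≠ 0 := (Polynomial.map_ne_zero_iff
      (algebraMap ℚ ℂ).injective).mpr hPQ0
    have hcomp : P'.map (algebraMap ℚ ℂ)
        = (PQ.map (algebraMap ℚ ℂ)).comp (C (A : ℂ)⁻¹ * X) := by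
      rw [hP', Polynomial.map_comp, Polynomial.map_mul, map_C, map_X]
      congr 3
      simp
    rw [hPC, ← mult_scale (inv_ne_zero hAC) hPC0, ← hcomp, hS, Polynomial.map_mul,
      Polynomial.map_pow, map_cyclotomic]
    have hcyc0 : cyclotomic l ℂ ≠ 0 := cyclotomic_ne_zero l ℂ
    have hS0 : S.map (algebraMap ℚ ℂ) ≠ 0 := by
      intro h
      apply hSC
      rw [h]
      simp
    have hnz : cyclotomic l ℂ ^ M * S.map (algebraMap ℚ ℂ) ≠ 0 :=
      mul_ne_zero (pow_ne_zero _ hcyc0) hS0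
    rw [rootMultiplicity_mul hnz, rootMultiplicity_eq_zero hSC, add_zero]
    have h1 : rootMultiplicity z (cyclotomic l ℂ) = 1 := by
      apply le_antisymm
      · haveI : NeZero ((l : ℕ) : ℂ) := ⟨by exact_mod_cast hlp.out.ne_zero⟩
        exact rootMultiplicity_le_one_of_separable (separable_cyclotomic l ℂ) z
      · rw [Nat.succ_le_iff, rootMultiplicity_pos hcyc0]
        exact hz.isRoot_cyclotomic hlp.out.pos
    have h2 : ∀ m : ℕ, rootMultiplicity z (cyclotomic l ℂ ^ m) = m := by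
      intro m
      induction m with
      | zero => simp
      | succ m ih =>
        rw [pow_succ, rootMultiplicity_mul (mul_ne_zero (pow_ne_zero _ hcyc0) hcyc0), ih, h1]
    exact h2 M
  · set a := rootMultiplicity ((A : ℚ)⁻¹) PQ with ha
    have h1 : (X - C (1 : ℚ)) ^ a ∣ P' := by
      rw [← le_rootMultiplicity_iff hP'0, hP', mult_scale hAQ' hPQ0, mul_one]
    have h2 : cyclotomic l ℚ ^ M ∣ P' := ⟨S, hS⟩
    have h3 : (X - C (1 : ℚ)) ^ a * cyclotomic l ℚ ^ M ∣ P' := ((cop l).pow).mul_dvd h1 h2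
    have h4 : ((X - C (1 : ℚ)) ^ a * cyclotomic l ℚ ^ M).comp (C (A : ℚ) * X) ∣ PQ := by
      rw [← comp_comp_inv hAQ PQ, ← hP', comp_mul_X_dvd hAQ]
      exact h3
    set Q : ℤ[X] := ((X - C (1 : ℤ)) ^ a * cyclotomic l ℤ ^ M).comp (C (A : ℤ) * X) with hQ
    have hQp : Q.IsPrimitive := by
      apply prim_of_coeff_zero
      rw [hQ, coeff_zero_eq_eval_zero, eval_comp]
      simp only [eval_mul, eval_C, eval_X, mul_zero, eval_pow, eval_sub]
      have : eval 0 (cyclotomic l ℤ) = 1 := by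
        rw [← coeff_zero_eq_eval_zero]
        exact cyclotomic_coeff_zero ℤ hl1
      rw [this, one_pow, mul_one, zero_sub]
      exact (isUnit_one.neg).pow a
    have h5 : Q.map (Int.castRingHom ℚ) ∣ P.map (Int.castRingHom ℚ) := by
      rw [hQ, Polynomial.map_comp, Polynomial.map_mul, Polynomial.map_pow, Polynomial.map_pow,
        Polynomial.map_sub, map_X, map_C, map_cyclotomic, Polynomial.map_mul, map_C, map_X]
      have e1 : (Int.castRingHom ℚ) 1 = 1 := map_one _
      have e2 : (Int.castRingHom ℚ) (A : ℤ) = (A : ℚ) := by simp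
      rw [e1, e2]
      exact h4
    have h6 : Q ∣ P := (IsPrimitive.Int.dvd_iff_map_cast_dvd_map_cast Q P hQp).mpr h5
    have h7 : Q.map (Int.castRingHom (ZMod l)) ∣ P.map (Int.castRingHom (ZMod l)) :=
      Polynomial.map_dvd _ h6
    have h8 : Q.map (Int.castRingHom (ZMod l)) = (X - C 1) ^ (a + (l - 1) * M) := by
      rw [hQ, Polynomial.map_comp, Polynomial.map_mul, Polynomial.map_pow, Polynomial.map_pow,
        Polynomial.map_sub, map_X, map_C, map_cyclotomic, Polynomial.map_mul, map_C, map_X,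
        cyc_mod]
      have e1 : (Int.castRingHom (ZMod l)) 1 = 1 := map_one _
      have e2 : (Int.castRingHom (ZMod l)) (A : ℤ) = 1 := by
        rw [eq_intCast]
        push_cast
        exact hA
      rw [e1, e2, C_1, one_mul, comp_X, pow_add, pow_mul]
    rw [h8] at h7
    have hne : P.map (Int.castRingHom (ZMod l)) ≠ 0 := by
      intro h
      have h1 := congrArg (fun f : (ZMod l)[X] => f.coeff 0) h
      simp [coeff_map, hP] at h1
    exact (le_rootMultiplicity_iff hne).mpr h7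

end cyc

end Pool.Agent.W555.TC
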