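import Pool.Agent.W555.TC.Cov

set_option autoImplicit false
set_option maxHeartbeats 1000000

namespace Pool.Agent.W555.TC
open Function

section twist

variable {k : Type*} [Field k] [Fintype k] {K : Type*} [Field K] [Algebra k K] [IsAlgClosed K]
  {r : ℕ} (F : MvPolynomial (Fin (r + 1)) k) {l : ℕ} [hlp : Fact l.Prime]
  {ε : k} (hε : ∀ a : k, a ^ l ≠ ε)

/-- the twisted form -/
noncomputable def tw (ε : k) (i : ℕ) : MvPolynomial (Fin (r + 1)) k :=
  MvPolynomial.C (ε ^ i) * F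

omit [IsAlgClosed K] in
lemma ev_tw (i : ℕ) (v : Fin (r + 1) → K) :
    ev (tw F ε i) v = (algebraMap k K ε) ^ i * ev F v := by
  unfold ev tw
  rw [map_mul, MvPolynomial.aeval_C, map_pow]

include hε hlp in
omit [Fintype k] [IsAlgClosed K] in
lemma eps_ne : algebraMap k K ε ≠ 0 := by
  intro h
  apply hε 0
  rw [(map_eq_zero (algebraMap k K)).mp h, zero_pow hlp.out.ne_zero]

include hε hlp in
omit [IsAlgClosed K] in
lemma ev_tw_zero (i : ℕ) (v : Fin (r + 1) → K) : ev (tw F ε i) v = 0 ↔ ev F v = 0 := by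
  rw [ev_tw, mul_eq_zero, or_iff_right (pow_ne_zero _ (eps_ne hε))]

include hε hlp in
omit [IsAlgClosed K] in
lemma Bn_tw (i n : ℕ) : (Bn (tw F ε i) n : Set (Fin (r + 1) → K)) = Bn F n := by
  ext v
  simp only [Bn, Set.mem_setOf_eq, ev_tw_zero F hε]

include hε hlp in
omit [IsAlgClosed K] in
lemma Un_tw (i n : ℕ) : (Un (tw F ε i) n : Set (Fin (r + 1) → K)) = Un F n := by
  ext v
  simp only [Un, Set.mem_setOf_eq, ne_eq, ev_tw_zero F hε]

include hε in
/-- Frobenius multiplies the root of a non-power by a primitive root of unity -/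
lemma eta_prim {η : K} (hη : η ^ l = algebraMap k K ε) :
    ∃ z : K, IsPrimitiveRoot z l ∧ fr k K η = z * η := by
  have hη0 : η ≠ 0 := by
    rintro rfl
    apply eps_ne (K := K) hε
    rw [← hη, zero_pow hlp.out.ne_zero]
  have h1 : (fr k K η / η) ^ l = 1 := by
    rw [div_pow, ← map_pow, hη, AlgHom.commutes, div_self (eps_ne hε)]
  refine ⟨fr k K η / η, ?_, ?_⟩
  · have h2 : fr k K η / η ≠ 1 := by
      intro h
      have h3 : fr k K η = η := by
        rw [div_eq_one_iff_eq hη0] at h; exact h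
      have h4 : η ∈ Fix k K 1 := by
        show η ^ (Fintype.card k ^ 1) = η
        rw [pow_one]; exact h3
      rw [Fix_one_eq_range] at h4
      obtain ⟨a, rfl⟩ := h4
      apply hε a
      apply (algebraMap k K).injective
      rw [map_pow, hη]
    rw [← orderOf_eq_prime h1 h2]
    exact IsPrimitiveRoot.orderOf _
  · rw [div_mul_cancel₀ _ hη0]

/-- the criterion for a point to split in a twist -/
lemma mem_Sn_tw (hq : l ∣ Fintype.card k - 1) {η z : K}
    (hη : η ^ l = algebraMap k K ε) (hη0 : η ≠ 0) (hz : z ^ l = 1) (hfr : fr k K η = z * η)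
    {n : ℕ} {v : Fin (r + 1) → K} (hv : v ∈ (Un F n : Set (Fin (r + 1) → K)))
    {y s : K} (hy : y ^ l = ev F v) (hs : s ^ l = 1) (hfy : (fr k K)^[n] y = s * y) (i : ℕ) :
    v ∈ (Sn (tw F ε i) l n : Set (Fin (r + 1) → K)) ↔ z ^ (n * i) * s = 1 := by
  have hy0 : y ≠ 0 := by
    rintro rfl
    apply hv.2.2
    rw [← hy, zero_pow hlp.out.ne_zero]
  have h1 : (fr k K)^[n] η = z ^ n * η := by
    have := fr_iter_mul_mul hq hz (d := 1) (y := η) (by rw [iterate_one]; exact hfr) n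
    rwa [one_mul] at this
  have h2 : (fr k K)^[n] (η ^ i * y) = (z ^ (n * i) * s) * (η ^ i * y) := by
    rw [fr_iter_mul, fr_iter_pow, h1, hfy, mul_pow, ← pow_mul]; ring
  have h3 : (η ^ i * y) ^ l = ev (tw F ε i) v := by
    rw [ev_tw, mul_pow, hy, ← pow_mul, mul_comm i l, pow_mul, hη]
  have h0 : η ^ i * y ≠ 0 := mul_ne_zero (pow_ne_zero _ hη0) hy0
  have h0' : ev (tw F ε i) v ≠ 0 := by
    rw [← h3]; exact pow_ne_zero _ h0
  constructor
  · rintro ⟨_, _, w, hw, hfw⟩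
    -- `w = t * (η ^ i * y)` with `t ^ l = 1`
    have h4 : (w / (η ^ i * y)) ^ l = 1 := by
      rw [div_pow, hw, h3, div_self h0']
    have h5 : (fr k K)^[n] (w / (η ^ i * y)) = w / (η ^ i * y) := mu_fix hq h4 n
    have h6 : w = (w / (η ^ i * y)) * (η ^ i * y) := by rw [div_mul_cancel₀ _ h0]
    have h7 := hfw
    rw [h6, fr_iter_mul, h5, h2] at h7
    have hw0 : w ≠ 0 := by
      rintro rfl
      rw [zero_pow hlp.out.ne_zero] at hw
      exact h0' hw.symm
    have h8 : (z ^ (n * i) * s) * w = w := by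
      have : (z ^ (n * i) * s) * w
          = (w / (η ^ i * y)) * ((z ^ (n * i) * s) * (η ^ i * y)) := by
        nth_rewrite 1 [h6]; ring
      rw [this, h7, ← h6]
    have h9 : (z ^ (n * i) * s - 1) * w = 0 := by linear_combination h8
    rcases mul_eq_zero.mp h9 with h | h
    · exact sub_eq_zero.mp h
    · exact (hw0 h).elim
  · intro h
    refine ⟨hv.1, ⟨hv.2.1, h0'⟩, η ^ i * y, h3, ?_⟩
    rw [h2, h, one_mul]

include hε in
/-- over an extension of degree divisible by `l` all the twists have the same points -/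
theorem rel_dvd (hq : l ∣ Fintype.card k - 1) {n : ℕ} (hn0 : 0 < n) (hn : l ∣ n) (i : ℕ) :
    (Dn (tw F ε i) l n : Set ((Fin (r + 1) → K) × K)).ncard
      = (Dn F l n : Set ((Fin (r + 1) → K) × K)).ncard := by
  rw [card_Dn _ hq hn0, card_Dn _ hq hn0, Bn_tw F hε]
  congr 3
  obtain ⟨η, hη⟩ := IsAlgClosed.exists_pow_nat_eq (algebraMap k K ε) hlp.out.pos
  have hη0 : η ≠ 0 := by
    rintro rfl
    apply eps_ne (K := K) hε
    rw [← hη, zero_pow hlp.out.ne_zero]
  obtain ⟨z, hz, hfr⟩ := eta_prim hε hη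
  have hiff : ∀ v : Fin (r + 1) → K, v ∈ (Un F n : Set (Fin (r + 1) → K)) →
      (v ∈ (Sn (tw F ε i) l n : Set (Fin (r + 1) → K))
        ↔ v ∈ (Sn F l n : Set (Fin (r + 1) → K))) := by
    intro v hv
    obtain ⟨y, hy⟩ := IsAlgClosed.exists_pow_nat_eq (ev F v) hlp.out.pos
    obtain ⟨s, hs, hfy⟩ := ratio F hv.1 hy hv.2.2
    have h0 : tw F ε 0 = F := by unfold tw; rw [pow_zero, MvPolynomial.C_1, one_mul]
    have a := mem_Sn_tw F hq hη hη0 hz.pow_eq_one hfr hv hy hs hfy i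
    have b := mem_Sn_tw F hq hη hη0 hz.pow_eq_one hfr hv hy hs hfy 0
    rw [h0] at b
    rw [a, b]
    obtain ⟨t, rfl⟩ := hn
    rw [mul_zero, pow_zero, mul_assoc, pow_mul, hz.pow_eq_one, one_pow]
  ext v
  by_cases hv : v ∈ (Un F n : Set (Fin (r + 1) → K))
  · exact hiff v hv
  · constructor
    · rintro ⟨h1, h2, _⟩
      exact (hv (by rw [← Un_tw F hε i]; exact ⟨h1, h2⟩)).elim
    · rintro ⟨h1, h2, _⟩
      exact (hv ⟨h1, h2⟩).elim

include hε in
/-- over an extension of degree prime to `l` the points of all the twists cover projective space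
`l` times -/
theorem rel_ndvd (hq : l ∣ Fintype.card k - 1) {n : ℕ} (hn0 : 0 < n) (hn : ¬ l ∣ n) :
    ∑ i : Fin l, (Dn (tw F ε i) l n : Set ((Fin (r + 1) → K) × K)).ncard
      = l * (An k K r n).ncard := by
  have hl0 := hlp.out.pos
  obtain ⟨η, hη⟩ := IsAlgClosed.exists_pow_nat_eq (algebraMap k K ε) hl0
  have hη0 : η ≠ 0 := by
    rintro rfl
    apply eps_ne (K := K) hε
    rw [← hη, zero_pow hlp.out.ne_zero]
  obtain ⟨z, hz, hfr⟩ := eta_prim hε hη
  have hcop : Nat.Coprime n l := (Nat.Coprime.symm ((Nat.Prime.coprime_iff_not_dvd hlp.out).mpr hn))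
  have hzn : IsPrimitiveRoot (z ^ n) l := hz.pow_of_coprime n hcop
  have hU : (⋃ i : Fin l, (Sn (tw F ε i) l n : Set (Fin (r + 1) → K))) = Un F n := by
    ext v
    rw [Set.mem_iUnion]
    constructor
    · rintro ⟨i, h1, h2, _⟩
      rw [← Un_tw F hε i]; exact ⟨h1, h2⟩
    · intro hv
      obtain ⟨y, hy⟩ := IsAlgClosed.exists_pow_nat_eq (ev F v) hl0
      obtain ⟨s, hs, hfy⟩ := ratio F hv.1 hy hv.2.2
      have hs0 : s ≠ 0 := by
        rintro rfl
        rw [zero_pow hl0.ne'] at hs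
        exact zero_ne_one hs
      obtain ⟨j, hj, hj2⟩ := hzn.eq_pow_of_pow_eq_one (ξ := s⁻¹) (by rw [inv_pow, hs, inv_one])
      refine ⟨⟨j, hj⟩, ?_⟩
      rw [mem_Sn_tw F hq hη hη0 hz.pow_eq_one hfr hv hy hs hfy j, pow_mul, hj2,
        inv_mul_cancel₀ hs0]
  have hdisj : Pairwise (Disjoint on fun i : Fin l =>
      (Sn (tw F ε i) l n : Set (Fin (r + 1) → K))) := by
    intro i j hij
    show Disjoint (Sn (tw F ε i) l n : Set (Fin (r + 1) → K)) (Sn (tw F ε j) l n)
    rw [Set.disjoint_left]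
    intro v hvi hvj
    apply hij
    have hv : v ∈ (Un F n : Set (Fin (r + 1) → K)) := by
      rw [← Un_tw F hε i]; exact ⟨hvi.1, hvi.2.1⟩
    obtain ⟨y, hy⟩ := IsAlgClosed.exists_pow_nat_eq (ev F v) hl0
    obtain ⟨s, hs, hfy⟩ := ratio F hv.1 hy hv.2.2
    rw [mem_Sn_tw F hq hη hη0 hz.pow_eq_one hfr hv hy hs hfy, pow_mul] at hvi hvj
    have hs0 : s ≠ 0 := by
      rintro rfl
      rw [zero_pow hl0.ne'] at hs
      exact zero_ne_one hs
    have h1 : (z ^ n) ^ (i : ℕ) = (z ^ n) ^ (j : ℕ) := mul_right_cancel₀ hs0 (hvi.trans hvj.symm)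
    exact Fin.ext (hzn.pow_inj i.2 j.2 h1)
  have hsum : ∑ i : Fin l, (Sn (tw F ε i) l n : Set (Fin (r + 1) → K)).ncard
      = (Un F n : Set (Fin (r + 1) → K)).ncard := by
    rw [← hU, Set.ncard_iUnion_of_finite (fun i : Fin l => finS (tw F ε i) l hn0) hdisj,
      finsum_eq_sum_of_fintype]
  have h2 : ∀ i : Fin l, (Dn (tw F ε i) l n : Set ((Fin (r + 1) → K) × K)).ncard
      = (Bn F n : Set (Fin (r + 1) → K)).ncard
        + l * (Sn (tw F ε i) l n : Set (Fin (r + 1) → K)).ncard := by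
    intro i
    rw [card_Dn _ hq hn0, Bn_tw F hε]
  rw [Finset.sum_congr rfl (fun i _ => h2 i), Finset.sum_add_distrib, ← Finset.mul_sum, hsum,
    Finset.sum_const, Finset.card_univ, Fintype.card_fin, card_An F hn0, smul_eq_mul, mul_add]

end twist

end Pool.Agent.W555.TC
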