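import Pool.Agent.W555.TC.ModL
import Pool.Agent.W555.TC.Twist
import Pool.Agent.W555.TC.Poly

set_option autoImplicit false
set_option maxHeartbeats 1000000

namespace Pool.Agent.W555.TC
open Polynomial

/-- the series with coefficients `c n` for `n ≥ 1` -/
noncomputable def ser (c : ℕ → ℤ) : PowerSeries ℤ :=
  PowerSeries.mk fun n => if n = 0 then 0 else c n

/-- `P(0) = 1` and `T P'(T) / P(T) = ∑_{n ≥ 1} c(n) T^n` -/
def LogCoeffs (P : ℤ[X]) (c : ℕ → ℤ) : Prop :=
  P.coeff 0 = 1 ∧ ((X * derivative P : ℤ[X]) : PowerSeries ℤ) = (P : PowerSeries ℤ) * ser c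

lemma eul_coe {R : Type*} [CommRing R] (P : R[X]) :
    eul (P : PowerSeries R) = ((X * derivative P : R[X]) : PowerSeries R) := by
  ext n
  simp only [eul, PowerSeries.coeff_mk, Polynomial.coeff_coe]
  cases n with
  | zero => simp
  | succ n =>
    rw [coeff_X_mul, coeff_derivative, mul_comm]
    push_cast; ring

lemma LogCoeffs.toLD {P : ℤ[X]} {c : ℕ → ℤ} (h : LogCoeffs P c) :
    LD (P : PowerSeries ℤ) (ser c) := by
  unfold LD
  rw [eul_coe, h.2, mul_comm]

lemma LD_map {f c : PowerSeries ℤ} (h : LD f c) (φ : ℤ →+* ℂ) :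
    LD (PowerSeries.map φ f) (PowerSeries.map φ c) := by
  unfold LD at *
  have e : eul (PowerSeries.map φ f) = PowerSeries.map φ (eul f) := by
    ext n
    simp only [eul, PowerSeries.coeff_mk, PowerSeries.coeff_map, map_mul, map_natCast]
  rw [e, h, map_mul]

lemma LD_rescale {f c : PowerSeries ℂ} (h : LD f c) (a : ℂ) :
    LD (PowerSeries.rescale a f) (PowerSeries.rescale a c) := by
  unfold LD at *
  have e : eul (PowerSeries.rescale a f) = PowerSeries.rescale a (eul f) := by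
    ext n
    simp only [eul, PowerSeries.coeff_mk, PowerSeries.coeff_rescale]
    ring
  rw [e, h, map_mul]

lemma coe_comp_scale (P : ℂ[X]) (a : ℂ) :
    ((P.comp (C a * X) : ℂ[X]) : PowerSeries ℂ) = PowerSeries.rescale a (P : PowerSeries ℂ) := by
  ext n
  rw [Polynomial.coeff_coe, PowerSeries.coeff_rescale, Polynomial.coeff_coe,
    comp_C_mul_X_coeff, mul_comm]

lemma coe_prod' {R ι : Type*} [CommRing R] (s : Finset ι) (f : ι → R[X]) :
    ((∏ i ∈ s, f i : R[X]) : PowerSeries R) = ∏ i ∈ s, (f i : PowerSeries R) := by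
  classical
  induction s using Finset.induction_on with
  | empty => simp
  | insert a s ha ih => rw [Finset.prod_insert ha, Finset.prod_insert ha, Polynomial.coe_mul, ih]

/-- the relation between the twists -/
theorem prod_relation {l : ℕ} [hlp : Fact l.Prime] (R : Fin l → ℤ[X]) (c : Fin l → ℕ → ℤ)
    (hR : ∀ i, LogCoeffs (R i) (c i)) (h1 : ∀ n : ℕ, 0 < n → l ∣ n → ∀ i j, c i n = c j n)
    (h2 : ∀ n : ℕ, 0 < n → ¬ l ∣ n → ∑ i, c i n = 0) {z : ℂ} (hz : IsPrimitiveRoot z l)
    (i₀ : Fin l) :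
    ∏ i, (R i).map (Int.castRingHom ℂ)
      = ∏ j : Fin l, ((R i₀).map (Int.castRingHom ℂ)).comp (C (z ^ (j : ℕ)) * X) := by
  set φ := Int.castRingHom ℂ with hφ
  apply Polynomial.coe_injective ℂ
  have hL : ∀ i, LD (((R i).map φ : ℂ[X]) : PowerSeries ℂ) (PowerSeries.map φ (ser (c i))) := by
    intro i
    rw [Polynomial.polynomial_map_coe]
    exact LD_map (hR i).toLD φ
  have h0 : ∀ i, PowerSeries.coeff 0 (((R i).map φ : ℂ[X]) : PowerSeries ℂ) = 1 := by
    intro i
    rw [Polynomial.coeff_coe, coeff_map, (hR i).1, map_one]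
  have e1 : ((∏ i, (R i).map φ : ℂ[X]) : PowerSeries ℂ)
      = ∏ i, (((R i).map φ : ℂ[X]) : PowerSeries ℂ) := coe_prod' _ _
  have e2 : ((∏ j : Fin l, ((R i₀).map φ).comp (C (z ^ (j : ℕ)) * X) : ℂ[X]) : PowerSeries ℂ)
      = ∏ j : Fin l, PowerSeries.rescale (z ^ (j : ℕ)) (((R i₀).map φ : ℂ[X]) : PowerSeries ℂ) := by
    rw [coe_prod']
    exact Finset.prod_congr rfl (fun j _ => coe_comp_scale ((R i₀).map φ) (z ^ (j : ℕ)))
  rw [e1, e2]
  apply LD_ext (LD_prod Finset.univ _ _ (fun i _ => hL i))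
    (LD_prod Finset.univ _ _ (fun (j : Fin l) _ => LD_rescale (hL i₀) (z ^ (j : ℕ))))
  · rw [map_sum]
    apply Finset.sum_eq_zero
    intro i _
    simp [ser]
  · rw [map_sum]
    apply Finset.sum_eq_zero
    intro i _
    simp [ser, PowerSeries.coeff_rescale]
  · exact coeff_zero_prod' _ _ (fun i _ => h0 i)
  · apply coeff_zero_prod'
    intro j _
    rw [PowerSeries.coeff_rescale, pow_zero, one_mul]
    exact h0 i₀
  · intro n hn
    rw [map_sum, map_sum]
    have a1 : ∀ i, PowerSeries.coeff n (PowerSeries.map φ (ser (c i))) = ((c i n : ℤ) : ℂ) := by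
      intro i
      rw [PowerSeries.coeff_map, ser, PowerSeries.coeff_mk, if_neg hn.ne']
      rfl
    rw [Finset.sum_congr rfl (fun i _ => a1 i)]
    have a2 : ∀ j : Fin l, PowerSeries.coeff n (PowerSeries.rescale (z ^ (j : ℕ))
        (PowerSeries.map φ (ser (c i₀)))) = (z ^ n) ^ (j : ℕ) * ((c i₀ n : ℤ) : ℂ) := by
      intro j
      rw [PowerSeries.coeff_rescale, a1, ← pow_mul, ← pow_mul, mul_comm n]
    rw [Finset.sum_congr rfl (fun j _ => a2 j), ← Finset.sum_mul]
    by_cases hd : l ∣ n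
    · have a3 : z ^ n = 1 := by
        obtain ⟨t, rfl⟩ := hd
        rw [pow_mul, hz.pow_eq_one, one_pow]
      rw [a3]
      simp only [one_pow, Finset.sum_const, Finset.card_univ, Fintype.card_fin, nsmul_eq_mul,
        mul_one]
      rw [Finset.sum_congr rfl (fun i _ => by rw [h1 n hn hd i i₀])]
      simp
    · have a3 : IsPrimitiveRoot (z ^ n) l :=
        hz.pow_of_coprime n (Nat.Coprime.symm ((Nat.Prime.coprime_iff_not_dvd hlp.out).mpr hd))
      have a4 : ∑ j : Fin l, (z ^ n) ^ (j : ℕ) = 0 := by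
        rw [Fin.sum_univ_eq_sum_range (fun j => (z ^ n) ^ j) l]
        exact a3.geom_sum_eq_zero hlp.out.one_lt
      rw [a4, zero_mul]
      have a5 := h2 n hn hd
      exact_mod_cast a5

end Pool.Agent.W555.TC
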