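import Pool.Agent.W555.TC.Lin

set_option autoImplicit false
set_option maxHeartbeats 1000000

namespace Pool.Agent.W555.TC
open Polynomial

section bound

variable {E : Type*} [Field E] [CharZero E] [IsAlgClosed E]
  {V : Type*} [AddCommGroup V] [Module E V] [FiniteDimensional E V]
  {l : ℕ} [hlp : Fact l.Prime]

/-- the dimension of the space where a power of Frobenius with exponent a power of `l` is trivial -/
theorem finrank_fixed_le (A : Module.End E V) {R : ℤ[X]} (hR0 : R.coeff 0 = 1) {q : ℕ}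
    (hq0 : q ≠ 0) (hq1 : ((q : ℕ) : ZMod l) = 1)
    (hA : (LinearMap.charpoly A).reverse
      = (R.map (Int.castRingHom E)).comp (C ((q : E)⁻¹) * X)) (a : ℕ) :
    Module.finrank E (LinearMap.ker (A ^ (l ^ a) - 1))
      ≤ rootMultiplicity 1 (R.map (Int.castRingHom (ZMod l))) := by
  classical
  have hla : 0 < l ^ a := pow_pos hlp.out.pos a
  have : NeZero ((l ^ a : ℕ) : E) := ⟨by exact_mod_cast hla.ne'⟩
  obtain ⟨z₀, hz₀⟩ := HasEnoughRootsOfUnity.exists_primitiveRoot E (l ^ a)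
  have h1 : (aeval A (∏ z ∈ nthRootsFinset (l ^ a) (1 : E), (X - C z))) = A ^ (l ^ a) - 1 := by
    rw [← X_pow_sub_one_eq_prod hla hz₀, map_sub, map_pow, aeval_X, map_one]
  have h2 := finrank_ker_prod A (nthRootsFinset (l ^ a) (1 : E))
  rw [h1] at h2
  refine h2.trans ?_
  have hRE : R.map (Int.castRingHom E) ≠ 0 := by
    intro h
    have h1 := congrArg (fun f : E[X] => f.coeff 0) h
    simp [coeff_map, hR0] at h1
  have hqE : (q : E)⁻¹ ≠ 0 := inv_ne_zero (by exact_mod_cast hq0)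
  have hchar0 : LinearMap.charpoly A ≠ 0 := (LinearMap.charpoly_monic A).ne_zero
  have hterm : ∀ z ∈ nthRootsFinset (l ^ a) (1 : E), rootMultiplicity z (LinearMap.charpoly A)
      ≤ rootMultiplicity ((q : E)⁻¹ * z⁻¹) (R.map (Int.castRingHom E)) := by
    intro z hz
    have hz0 : z ≠ 0 := by
      rintro rfl
      rw [mem_nthRootsFinset hla, zero_pow hla.ne'] at hz
      exact zero_ne_one hz
    rw [← mult_scale hqE hRE, ← hA]
    exact mult_reverse hchar0 hz0
  refine (Finset.sum_le_sum hterm).trans ?_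
  have hre : ∑ z ∈ nthRootsFinset (l ^ a) (1 : E),
      rootMultiplicity ((q : E)⁻¹ * z⁻¹) (R.map (Int.castRingHom E))
      = ∑ z ∈ nthRootsFinset (l ^ a) (1 : E),
        rootMultiplicity ((q : E)⁻¹ * z) (R.map (Int.castRingHom E)) := by
    have hi : ∀ z ∈ nthRootsFinset (l ^ a) (1 : E), z⁻¹ ∈ nthRootsFinset (l ^ a) (1 : E) := by
      intro z hz
      rw [mem_nthRootsFinset hla] at hz ⊢
      rw [inv_pow, hz, inv_one]
    exact Finset.sum_bij' (fun z _ => z⁻¹) (fun z _ => z⁻¹) hi hi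
      (fun z _ => inv_inv z) (fun z _ => inv_inv z) (fun z _ => rfl)
  rw [hre]
  exact mult_bound_pow l hR0 hq0 hq1 a

end bound

section grp

variable {E : Type*} [Field E] [CharZero E]
  {V : Type*} [AddCommGroup V] [Module E V]
  {G : Type*} [Group G] (ρ : Representation E G V) (τ : Module.End E V)
  {l : ℕ} [hlp : Fact l.Prime]

/-- the invariants of the twist of the representation by a character with values in `⟨τ⟩` -/
def twInv (ψ : G →* Multiplicative (ZMod l)) : Submodule E V where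
  carrier := {v | ∀ g, ρ g ((τ ^ (ψ g).toAdd.val) v) = v}
  add_mem' := by
    intro v w hv hw g
    rw [map_add, map_add, hv g, hw g]
  zero_mem' := by
    intro g
    rw [map_zero, map_zero]
  smul_mem' := by
    intro c v hv g
    rw [map_smul, map_smul, hv g]

variable (hτ : ∑ j ∈ Finset.range l, τ ^ j = 0) (hc : ∀ g, ρ g * τ = τ * ρ g)

include hτ

lemma tau_pow : τ ^ l = 1 := by
  have h := mul_neg_geom_sum τ l
  rw [hτ, mul_zero] at h
  exact (sub_eq_zero.mp h.symm).symm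

lemma tau_mod (n : ℕ) : τ ^ (n % l) = τ ^ n := by
  conv_rhs => rw [← Nat.mod_add_div n l]
  rw [pow_add, pow_mul, tau_pow τ hτ, one_pow, mul_one]

lemma tau_val_add (a b : ZMod l) : τ ^ (a + b).val = τ ^ a.val * τ ^ b.val := by
  rw [ZMod.val_add, tau_mod τ hτ, pow_add]

lemma tau_fixed {v : V} {a : ZMod l} (ha : a ≠ 0) (h : (τ ^ a.val) v = v) : v = 0 := by
  have h1 : ∀ n : ℕ, ((τ ^ a.val) ^ n) v = v := by
    intro n
    induction n with
    | zero => rfl
    | succ n ih => rw [pow_succ, Module.End.mul_apply, h, ih]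
  have h2 : τ v = v := by
    have h3 := h1 (a⁻¹).val
    rw [← pow_mul, ← tau_mod τ hτ, ← ZMod.val_mul, mul_inv_cancel₀ ha, ZMod.val_one,
      pow_one] at h3
    exact h3
  have h4 : ∀ n : ℕ, (τ ^ n) v = v := by
    intro n
    induction n with
    | zero => rfl
    | succ n ih => rw [pow_succ, Module.End.mul_apply, h2, ih]
  have h5 : (∑ j ∈ Finset.range l, τ ^ j) v = 0 := by rw [hτ]; rfl
  rw [LinearMap.sum_apply, Finset.sum_congr rfl (fun j _ => h4 j), Finset.sum_const,
    Finset.card_range, ← Nat.cast_smul_eq_nsmul E] at h5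
  rcases smul_eq_zero.mp h5 with h6 | h6
  · exact absurd h6 (by exact_mod_cast hlp.out.ne_zero)
  · exact h6

omit hτ
include hc in
lemma comm_pow (g : G) (n : ℕ) (v : V) : ρ g ((τ ^ n) v) = (τ ^ n) (ρ g v) := by
  have h : Commute (ρ g) (τ ^ n) := (show Commute (ρ g) τ from hc g).pow_right n
  have := congrArg (fun f : Module.End E V => f v) h.eq
  exact this

include hτ hc

lemma tw_shift {ψ : G →* Multiplicative (ZMod l)} {v : V} (hv : v ∈ twInv ρ τ ψ) (g : G)
    (c : ZMod l) : ρ g ((τ ^ c.val) v) = (τ ^ (c - (ψ g).toAdd).val) v := by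
  have h1 : c = (c - (ψ g).toAdd) + (ψ g).toAdd := by ring
  conv_lhs => rw [h1]
  rw [tau_val_add τ hτ, Module.End.mul_apply, comm_pow ρ τ hc, hv g]

/-- the invariants of the different twists are independent -/
theorem indep (S : Finset (G →* Multiplicative (ZMod l))) :
    ∀ v : (G →* Multiplicative (ZMod l)) → V, (∀ ψ ∈ S, v ψ ∈ twInv ρ τ ψ) →
      ∑ ψ ∈ S, v ψ = 0 → ∀ ψ ∈ S, v ψ = 0 := by
  classical
  induction S using Finset.induction_on with
  | empty => intro v _ _ ψ h; exact absurd h (Finset.notMem_empty ψ)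
  | insert ψ₁ S hψ₁ ih =>
    intro v hv hsum
    rw [Finset.sum_insert hψ₁] at hsum
    have key : ∀ ψ₂ ∈ S, v ψ₂ = 0 := by
      intro ψ₂ hψ₂
      have hne : ψ₁ ≠ ψ₂ := fun h => hψ₁ (h ▸ hψ₂)
      obtain ⟨g, hg⟩ : ∃ g, ψ₁ g ≠ ψ₂ g := by
        by_contra hcon
        push Not at hcon
        exact hne (MonoidHom.ext hcon)
      have h1 : ρ g ((τ ^ (ψ₁ g).toAdd.val) (v ψ₁ + ∑ ψ ∈ S, v ψ)) = 0 := by
        rw [hsum, map_zero, map_zero]
      rw [map_add, map_add, hv ψ₁ (Finset.mem_insert_self _ _) g, map_sum, map_sum] at h1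
      have h2 : ∑ ψ ∈ S, ((τ ^ ((ψ₁ g).toAdd - (ψ g).toAdd).val) (v ψ) - v ψ) = 0 := by
        rw [Finset.sum_sub_distrib]
        have h3 : ∑ ψ ∈ S, ρ g ((τ ^ (ψ₁ g).toAdd.val) (v ψ))
            = ∑ ψ ∈ S, (τ ^ ((ψ₁ g).toAdd - (ψ g).toAdd).val) (v ψ) :=
          Finset.sum_congr rfl fun ψ hψ =>
            tw_shift ρ τ hτ hc (hv ψ (Finset.mem_insert_of_mem hψ)) g _
        rw [← h3]
        have h4 : ∑ ψ ∈ S, ρ g ((τ ^ (ψ₁ g).toAdd.val) (v ψ)) = -v ψ₁ := by
          rw [eq_neg_iff_add_eq_zero, add_comm]; exact h1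
        have h5 : ∑ ψ ∈ S, v ψ = -v ψ₁ := by
          rw [eq_neg_iff_add_eq_zero, add_comm]; exact hsum
        rw [h4, h5, sub_self]
      have h3 := ih (fun ψ => (τ ^ ((ψ₁ g).toAdd - (ψ g).toAdd).val) (v ψ) - v ψ) (by
        intro ψ hψ
        have hmem := hv ψ (Finset.mem_insert_of_mem hψ)
        apply Submodule.sub_mem _ _ hmem
        intro g'
        have e1 : (τ ^ (ψ g').toAdd.val) ((τ ^ ((ψ₁ g).toAdd - (ψ g).toAdd).val) (v ψ))
            = (τ ^ ((ψ₁ g).toAdd - (ψ g).toAdd).val) ((τ ^ (ψ g').toAdd.val) (v ψ)) := by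
          rw [← Module.End.mul_apply, ← Module.End.mul_apply, ← pow_add, ← pow_add, add_comm]
        rw [e1, comm_pow ρ τ hc, hmem g']) h2 ψ₂ hψ₂
      have h4 : (ψ₁ g).toAdd - (ψ₂ g).toAdd ≠ 0 := by
        intro h
        apply hg
        have h6 := sub_eq_zero.mp h
        exact Multiplicative.toAdd.injective h6
      exact tau_fixed τ hτ h4 (sub_eq_zero.mp h3)
    intro ψ hψ
    rcases Finset.mem_insert.mp hψ with rfl | h
    · rw [Finset.sum_congr rfl key, Finset.sum_const_zero, add_zero] at hsum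
      exact hsum
    · exact key ψ h

/-- the twisted invariants are fixed by the `l`-th power of every element -/
lemma tw_fixed {ψ : G →* Multiplicative (ZMod l)} {v : V} (hv : v ∈ twInv ρ τ ψ) (g : G) :
    ((ρ g) ^ l) v = v := by
  have h1 : ∀ n : ℕ, ((ρ g) ^ n) ((τ ^ ((ψ g).toAdd.val * n)) v) = v := by
    intro n
    induction n with
    | zero => simp
    | succ n ih =>
      have e : (τ ^ ((ψ g).toAdd.val * (n + 1))) v
          = (τ ^ ((ψ g).toAdd.val * n)) ((τ ^ (ψ g).toAdd.val) v) := by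
        rw [← Module.End.mul_apply, ← pow_add]
        congr 2
      rw [e, pow_succ (ρ g), Module.End.mul_apply, comm_pow ρ τ hc, hv g, ih]
  have h2 := h1 l
  rw [mul_comm, pow_mul, tau_pow τ hτ, one_pow] at h2
  exact h2

variable [FiniteDimensional E V]

theorem sum_finrank_le (S : Finset (G →* Multiplicative (ZMod l))) (g : G) :
    ∑ ψ ∈ S, Module.finrank E (twInv ρ τ ψ)
      ≤ Module.finrank E (LinearMap.ker ((ρ g) ^ l - 1)) := by
  classical
  have h1 : ∑ ψ ∈ S, Module.finrank E (twInv ρ τ ψ)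
      = Module.finrank E (∀ ψ : S, twInv ρ τ (ψ : G →* Multiplicative (ZMod l))) := by
    rw [Module.finrank_pi_fintype, ← Finset.sum_coe_sort]
  rw [h1]
  let L : (∀ ψ : S, twInv ρ τ (ψ : G →* Multiplicative (ZMod l))) →ₗ[E] V :=
    ∑ ψ : S, (Submodule.subtype _).comp (LinearMap.proj ψ)
  have hL : ∀ x, L x = ∑ ψ : S, (x ψ : V) := by
    intro x
    simp [L, LinearMap.sum_apply]
  have hmem : ∀ x, L x ∈ LinearMap.ker ((ρ g) ^ l - 1) := by
    intro x
    rw [hL, LinearMap.mem_ker, map_sum]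
    apply Finset.sum_eq_zero
    intro ψ _
    rw [LinearMap.sub_apply, tw_fixed ρ τ hτ hc (x ψ).2 g]
    simp
  let L' := L.codRestrict _ hmem
  apply LinearMap.finrank_le_finrank_of_injective (f := L')
  rw [← LinearMap.ker_eq_bot, LinearMap.ker_eq_bot']
  intro x hx
  have hx' : L x = 0 := by
    have := congrArg Subtype.val hx
    exact this
  rw [hL] at hx'
  have h2 := indep ρ τ hτ hc S (fun ψ => if h : ψ ∈ S then ((x ⟨ψ, h⟩ : twInv ρ τ ψ) : V) else 0)
    (by
      intro ψ hψ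
      rw [dif_pos hψ]
      exact (x ⟨ψ, hψ⟩).2) (by
      rw [← Finset.sum_coe_sort, ← hx']
      apply Finset.sum_congr rfl
      intro ψ _
      rw [dif_pos ψ.2])
  ext ψ
  have h3 := h2 ψ.1 ψ.2
  rw [dif_pos ψ.2] at h3
  exact h3

end grp

end Pool.Agent.W555.TC
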