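import Mathlib

set_option autoImplicit false
set_option maxHeartbeats 1000000

namespace Pool.Agent.W555.TC
open PowerSeries

section ring

variable {R : Type*} [CommRing R]

/-- Euler operator `T d/dT`. -/
noncomputable def eul (f : R⟦X⟧) : R⟦X⟧ := PowerSeries.mk fun n => (n : R) * coeff n f

/-- `c` is the logarithmic derivative `T f' / f` of `f`. -/
def LD (f c : R⟦X⟧) : Prop := eul f = c * f

lemma eul_mul (f g : R⟦X⟧) : eul (f * g) = eul f * g + f * eul g := by
  ext n
  simp only [eul, coeff_mk, map_add, coeff_mul, Finset.mul_sum, ← Finset.sum_add_distrib]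
  apply Finset.sum_congr rfl
  intro p hp
  have h : p.1 + p.2 = n := Finset.HasAntidiagonal.mem_antidiagonal.mp hp
  rw [← h]; push_cast; ring

lemma LD_mul {f g c d : R⟦X⟧} (hf : LD f c) (hg : LD g d) : LD (f * g) (c + d) := by
  unfold LD at *
  rw [eul_mul, hf, hg]; ring

lemma LD_one : LD (1 : R⟦X⟧) 0 := by
  unfold LD eul
  ext n
  simp only [coeff_mk, coeff_one, mul_ite, mul_one, mul_zero, zero_mul, map_zero]
  split_ifs with h
  · rw [h, Nat.cast_zero]
  · rfl

lemma LD_pow {f c : R⟦X⟧} (hf : LD f c) (k : ℕ) : LD (f ^ k) ((k : R⟦X⟧) * c) := by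
  induction k with
  | zero => simpa using LD_one
  | succ k ih =>
    have := LD_mul ih hf
    rw [pow_succ]
    have e : ((k + 1 : ℕ) : R⟦X⟧) * c = (k : R⟦X⟧) * c + c := by push_cast; ring
    rw [e]; exact this

lemma LD_prod {ι : Type*} (s : Finset ι) (f c : ι → R⟦X⟧) (h : ∀ i ∈ s, LD (f i) (c i)) :
    LD (∏ i ∈ s, f i) (∑ i ∈ s, c i) := by
  classical
  induction s using Finset.induction_on with
  | empty => simpa using LD_one
  | insert a s ha ih =>
    rw [Finset.prod_insert ha, Finset.sum_insert ha]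
    exact LD_mul (h a (Finset.mem_insert_self a s))
      (ih fun i hi => h i (Finset.mem_insert_of_mem hi))

lemma coeff_natCast_mul (k n : ℕ) (c : R⟦X⟧) : coeff n ((k : R⟦X⟧) * c) = k * coeff n c := by
  rw [← nsmul_eq_mul, map_nsmul, nsmul_eq_mul]

lemma coeff_zero_mul' {f g : R⟦X⟧} (hf : coeff 0 f = 1) (hg : coeff 0 g = 1) :
    coeff 0 (f * g) = 1 := by
  rw [coeff_zero_eq_constantCoeff_apply] at *
  rw [map_mul, hf, hg, one_mul]

lemma coeff_zero_pow' {f : R⟦X⟧} (hf : coeff 0 f = 1) (n : ℕ) : coeff 0 (f ^ n) = 1 := by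
  rw [coeff_zero_eq_constantCoeff_apply] at *
  rw [map_pow, hf, one_pow]

lemma coeff_zero_prod' {ι : Type*} (s : Finset ι) (f : ι → R⟦X⟧)
    (h : ∀ i ∈ s, coeff 0 (f i) = 1) : coeff 0 (∏ i ∈ s, f i) = 1 := by
  rw [coeff_zero_eq_constantCoeff_apply, map_prod]
  apply Finset.prod_eq_one
  intro i hi
  rw [← coeff_zero_eq_constantCoeff_apply]
  exact h i hi

/-- two series with the same constant term `1` and logarithmic derivatives that agree up to
degree `K` agree up to degree `K` -/
lemma LD_unique [IsDomain R] [CharZero R] {f g c d : R⟦X⟧} (hf : LD f c) (hg : LD g d)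
    (hc0 : coeff 0 c = 0) (hd0 : coeff 0 d = 0) (hf0 : coeff 0 f = 1) (hg0 : coeff 0 g = 1)
    (K : ℕ) (h : ∀ n ≤ K, coeff n c = coeff n d) : ∀ n ≤ K, coeff n f = coeff n g := by
  intro n
  induction n using Nat.strong_induction_on with
  | _ n ih =>
    intro hn
    rcases Nat.eq_zero_or_pos n with rfl | hpos
    · rw [hf0, hg0]
    · have e1 := congrArg (coeff n) hf
      have e2 := congrArg (coeff n) hg
      simp only [eul, coeff_mk, coeff_mul] at e1 e2
      have : ∑ p ∈ Finset.HasAntidiagonal.antidiagonal n, coeff p.1 c * coeff p.2 f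
          = ∑ p ∈ Finset.HasAntidiagonal.antidiagonal n, coeff p.1 d * coeff p.2 g := by
        apply Finset.sum_congr rfl
        intro p hp
        have hpn : p.1 + p.2 = n := Finset.HasAntidiagonal.mem_antidiagonal.mp hp
        rcases Nat.eq_zero_or_pos p.1 with h0 | h0
        · rw [h0, hc0, hd0]; ring
        · rw [h p.1 (by omega), ih p.2 (by omega) (by omega)]
      rw [this] at e1
      have : (n : R) * coeff n f = (n : R) * coeff n g := by rw [e1, e2]
      exact mul_left_cancel₀ (by exact_mod_cast hpos.ne') this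

lemma LD_ext [IsDomain R] [CharZero R] {f g c d : R⟦X⟧} (hf : LD f c) (hg : LD g d)
    (hc0 : coeff 0 c = 0) (hd0 : coeff 0 d = 0) (hf0 : coeff 0 f = 1) (hg0 : coeff 0 g = 1)
    (h : ∀ n : ℕ, 0 < n → coeff n c = coeff n d) : f = g := by
  ext n
  apply LD_unique hf hg hc0 hd0 hf0 hg0 n _ n le_rfl
  intro k _
  rcases Nat.eq_zero_or_pos k with rfl | hk
  · rw [hc0, hd0]
  · exact h k hk

/-- logarithmic derivative of `1 - a T^d` -/
noncomputable def cs (a : R) (d : ℕ) : R⟦X⟧ :=
  PowerSeries.mk fun n => if n ≠ 0 ∧ d ∣ n then -(d : R) * a ^ (n / d) else 0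

/-- the series `1 - a T^d` -/
noncomputable def fac (a : R) (d : ℕ) : R⟦X⟧ := 1 - C a * X ^ d

lemma coeff_fac (a : R) (d n : ℕ) :
    coeff n (fac a d) = (if n = 0 then 1 else 0) - (if n = d then a else 0) := by
  unfold fac
  rw [map_sub, coeff_one, coeff_C_mul_X_pow]

lemma LD_fac (a : R) {d : ℕ} (hd : 0 < d) : LD (fac a d) (cs a d) := by
  unfold LD
  ext n
  have e : cs a d * fac a d = cs a d - C a * (cs a d * X ^ d) := by unfold fac; ring
  rw [e]
  simp only [eul, coeff_mk, map_sub, coeff_C_mul, coeff_mul_X_pow', coeff_fac]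
  rcases Nat.eq_zero_or_pos n with rfl | hn
  · simp [hd.ne', cs]
  · rw [if_neg hn.ne']
    by_cases hdn : d ∣ n
    · obtain ⟨k, rfl⟩ := hdn
      have hk : 0 < k := by
        rcases Nat.eq_zero_or_pos k with rfl | h
        · simp at hn
        · exact h
      have h1 : d ≤ d * k := Nat.le_mul_of_pos_right d hk
      have h2 : d * k - d = d * (k - 1) := by rw [Nat.mul_sub, mul_one]
      rw [if_pos h1, h2]
      simp only [cs, coeff_mk]
      have q1 : d * k ≠ 0 ∧ d ∣ d * k := ⟨hn.ne', Dvd.intro k rfl⟩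
      rw [if_pos q1, Nat.mul_div_cancel_left _ hd]
      by_cases hk1 : k = 1
      · subst hk1
        have q2 : ¬ (d * (1 - 1) ≠ 0 ∧ d ∣ d * (1 - 1)) := by simp
        rw [if_neg q2, if_pos (mul_one d)]
        push_cast; ring
      · have h3 : ¬ (d * k = d) := by
          intro h; apply hk1
          exact Nat.eq_of_mul_eq_mul_left hd (h.trans (mul_one d).symm)
        have q2 : d * (k - 1) ≠ 0 ∧ d ∣ d * (k - 1) := ⟨by
          apply Nat.mul_ne_zero hd.ne'; omega, Dvd.intro _ rfl⟩
        rw [if_neg h3, if_pos q2, Nat.mul_div_cancel_left _ hd]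
        have : a ^ k = a * a ^ (k - 1) := by
          rw [← pow_succ']; congr 1; omega
        rw [this]; ring
    · have h3 : ¬ (n = d) := fun h => hdn (h ▸ dvd_refl _)
      rw [if_neg h3]
      simp only [cs, coeff_mk]
      rw [if_neg (fun h => hdn h.2)]
      split_ifs with h4 h5
      · exfalso; apply hdn
        have h6 := h5.2
        have : n = (n - d) + d := by omega
        rw [this]
        exact Nat.dvd_add h6 (dvd_refl d)
      · ring
      · ring

lemma cs_zero (a : R) (d : ℕ) : coeff 0 (cs a d) = 0 := by simp [cs]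

lemma coeff_zero_fac (a : R) {d : ℕ} (hd : 0 < d) : coeff 0 (fac a d) = 1 := by
  rw [coeff_fac]; simp [hd.ne]

/-- the geometric sum `1 + T^d + ... + T^{d(l-1)}` -/
noncomputable def gs (R : Type*) [CommRing R] (l d : ℕ) : R⟦X⟧ := ∑ j ∈ Finset.range l, X ^ (d * j)

lemma fac_mul_gs (l d : ℕ) : fac (1 : R) d * gs R l d = fac (1 : R) (d * l) := by
  unfold fac gs
  have h := mul_neg_geom_sum (X ^ d : R⟦X⟧) l
  rw [map_one, one_mul, one_mul]
  simp only [← pow_mul] at h
  exact h

lemma fac_ne_zero [Nontrivial R] (a : R) {d : ℕ} (hd : 0 < d) : fac a d ≠ 0 := by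
  intro h
  have := coeff_zero_fac a hd
  rw [h] at this
  simp at this

lemma LD_gs [IsDomain R] {l d : ℕ} (hl : 0 < l) (hd : 0 < d) :
    LD (gs R l d) (cs 1 (d * l) - cs 1 d) := by
  have h1 : LD (fac (1 : R) (d * l)) (cs 1 (d * l)) := LD_fac 1 (Nat.mul_pos hd hl)
  have h2 : LD (fac (1 : R) d) (cs 1 d) := LD_fac 1 hd
  unfold LD at *
  rw [← fac_mul_gs, eul_mul, h2] at h1
  apply mul_left_cancel₀ (fac_ne_zero (1 : R) hd)
  linear_combination h1

lemma coeff_zero_gs {l d : ℕ} (hl : 0 < l) (hd : 0 < d) : coeff 0 (gs R l d) = 1 := by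
  have h := congrArg (coeff 0) (fac_mul_gs (R := R) l d)
  rw [coeff_zero_fac _ (Nat.mul_pos hd hl)] at h
  rw [coeff_zero_eq_constantCoeff_apply, map_mul] at h
  have h2 := coeff_zero_fac (1 : R) hd
  rw [coeff_zero_eq_constantCoeff_apply] at h2
  rw [h2, one_mul] at h
  rw [coeff_zero_eq_constantCoeff_apply]; exact h

end ring

end Pool.Agent.W555.TC
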