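import Pool.Agent.W555.TC.PolyPow

set_option autoImplicit false
set_option maxHeartbeats 1000000

namespace Pool.Agent.W555.TC
open Polynomial

section lin

variable {E : Type*} [Field E] {V : Type*} [AddCommGroup V] [Module E V] [FiniteDimensional E V]

/-- kernel of a product of distinct linear factors -/
lemma finrank_ker_prod (A : Module.End E V) (s : Finset E) :
    Module.finrank E (LinearMap.ker (aeval A (∏ z ∈ s, (X - C z))))
      ≤ ∑ z ∈ s, A.charpoly.rootMultiplicity z := by
  classical
  induction s using Finset.induction_on with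
  | empty =>
    rw [Finset.prod_empty, map_one, Finset.sum_empty]
    have : LinearMap.ker (1 : Module.End E V) = ⊥ := by
      rw [Module.End.one_eq_id]; exact LinearMap.ker_id
    rw [this, finrank_bot]
  | insert a s ha ih =>
    rw [Finset.prod_insert ha, Finset.sum_insert ha,
      ← sup_ker_aeval_eq_ker_aeval_mul_of_coprime A]
    · have h1 : LinearMap.ker (aeval A (X - C a)) = A.eigenspace a := by
        rw [Module.End.eigenspace_def]
        congr 1
        rw [map_sub, aeval_X, aeval_C, Algebra.algebraMap_eq_smul_one]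
      have h2 := Submodule.finrank_add_le_finrank_add_finrank
        (LinearMap.ker (aeval A (X - C a))) (LinearMap.ker (aeval A (∏ z ∈ s, (X - C z))))
      have h3 := LinearMap.finrank_eigenspace_le A a
      rw [h1] at h2
      rw [h1]
      omega
    · apply IsCoprime.prod_right
      intro z hz
      apply isCoprime_X_sub_C_of_isUnit_sub
      exact isUnit_iff_ne_zero.mpr (sub_ne_zero.mpr (fun h => ha (h ▸ hz)))

/-- roots of the reverse polynomial -/
lemma mult_reverse {P : E[X]} (hP : P ≠ 0) {z : E} (hz : z ≠ 0) :
    rootMultiplicity z P ≤ rootMultiplicity z⁻¹ P.reverse := by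
  have hr : P.reverse ≠ 0 := by rwa [Ne, reverse_eq_zero]
  rw [le_rootMultiplicity_iff hr]
  obtain ⟨Q, hQ⟩ := pow_rootMultiplicity_dvd P z
  have h1 : P.reverse = ((X - C z) ^ rootMultiplicity z P).reverse * Q.reverse := by
    conv_lhs => rw [hQ]
    rw [reverse_mul_of_domain]
  have h2 : ∀ n : ℕ, ((X - C z) ^ n).reverse = (1 - C z * X) ^ n := by
    intro n
    induction n with
    | zero => rw [pow_zero, pow_zero, ← C_1, reverse_C]
    | succ n ih =>
      rw [pow_succ, reverse_mul_of_domain, ih, pow_succ]
      congr 1
      have h3 : (X - C z : E[X]).natDegree = 1 := natDegree_X_sub_C z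
      ext i
      rw [coeff_reverse, h3]
      rcases i with _ | _ | i
      · rw [revAt_le (by norm_num : 0 ≤ 1)]
        simp
      · rw [revAt_le (by norm_num : 0 + 1 ≤ 1)]
        simp [coeff_one]
      · rw [revAt_eq_self_of_lt (by omega : 1 < i + 1 + 1)]
        simp [coeff_X, coeff_C, coeff_one]
  rw [h1, h2]
  apply dvd_mul_of_dvd_left
  have h4 : (1 - C z * X : E[X]) = C (-z) * (X - C z⁻¹) := by
    rw [mul_sub, ← C_mul, neg_mul, mul_inv_cancel₀ hz, C_neg, C_neg, C_1]
    ring
  rw [h4, mul_pow]
  exact Dvd.intro_left _ rfl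

end lin

end Pool.Agent.W555.TC
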