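import Pool.Agent.W555.TC.Fin

set_option autoImplicit false
set_option maxHeartbeats 1000000

namespace Pool.Agent.W555.TC
open Polynomial

lemma mult_prod {L ι : Type*} [Field L] (s : Finset ι) (f : ι → L[X]) (h : ∀ i ∈ s, f i ≠ 0)
    (x : L) : rootMultiplicity x (∏ i ∈ s, f i) = ∑ i ∈ s, rootMultiplicity x (f i) := by
  classical
  induction s using Finset.induction_on with
  | empty => simp
  | insert a s ha ih =>
    have h1 : ∀ i ∈ s, f i ≠ 0 := fun i hi => h i (Finset.mem_insert_of_mem hi)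
    have h2 : ∏ i ∈ s, f i ≠ 0 := Finset.prod_ne_zero_iff.mpr h1
    rw [Finset.prod_insert ha, Finset.sum_insert ha,
      rootMultiplicity_mul (mul_ne_zero (h a (Finset.mem_insert_self a s)) h2), ih h1]

lemma mult_pow {L : Type*} [Field L] {f : L[X]} (h : f ≠ 0) (x : L) (m : ℕ) :
    rootMultiplicity x (f ^ m) = m * rootMultiplicity x f := by
  induction m with
  | zero => simp
  | succ m ih =>
    rw [pow_succ, rootMultiplicity_mul (mul_ne_zero (pow_ne_zero _ h) h), ih]; ring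

section deduction

variable {l : ℕ} [hlp : Fact l.Prime]

/-- the multiplicities at `1/A` of the twists -/
theorem mult_relation (R : Fin l → ℤ[X]) (c : Fin l → ℕ → ℤ)
    (hR : ∀ i, LogCoeffs (R i) (c i)) (h1 : ∀ n : ℕ, 0 < n → l ∣ n → ∀ i j, c i n = c j n)
    (h2 : ∀ n : ℕ, 0 < n → ¬ l ∣ n → ∑ i, c i n = 0) {A : ℕ} (hA0 : A ≠ 0)
    (hA : ((A : ℕ) : ZMod l) = 1) (i₀ : Fin l) :
    ∃ M : ℕ, ∑ i, rootMultiplicity ((A : ℚ)⁻¹) ((R i).map (Int.castRingHom ℚ))
        = rootMultiplicity ((A : ℚ)⁻¹) ((R i₀).map (Int.castRingHom ℚ)) + (l - 1) * M ∧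
      rootMultiplicity ((A : ℚ)⁻¹) ((R i₀).map (Int.castRingHom ℚ)) + (l - 1) * M
        ≤ rootMultiplicity 1 ((R i₀).map (Int.castRingHom (ZMod l))) := by
  obtain ⟨M, hM1, hM2⟩ := mult_bound l (hR i₀).1 hA0 hA
  refine ⟨M, ?_, hM2⟩
  have hz := Complex.isPrimitiveRoot_exp l hlp.out.ne_zero
  set z := Complex.exp (2 * Real.pi * Complex.I / l) with hzdef
  have hz0 : z ≠ 0 := hz.ne_zero hlp.out.ne_zero
  have hAC : (A : ℂ) ≠ 0 := by exact_mod_cast hA0
  have hne : ∀ i, (R i).map (Int.castRingHom ℂ) ≠ 0 := by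
    intro i h
    have h1 := congrArg (fun f : ℂ[X] => f.coeff 0) h
    simp [coeff_map, (hR i).1] at h1
  have hconv : ∀ i, rootMultiplicity ((A : ℚ)⁻¹) ((R i).map (Int.castRingHom ℚ))
      = rootMultiplicity ((A : ℂ)⁻¹) ((R i).map (Int.castRingHom ℂ)) := by
    intro i
    have e := eq_rootMultiplicity_map (p := (R i).map (Int.castRingHom ℚ))
      (f := algebraMap ℚ ℂ) (algebraMap ℚ ℂ).injective ((A : ℚ)⁻¹)
    rw [e, Polynomial.map_map]
    have e1 : (algebraMap ℚ ℂ) ((A : ℚ)⁻¹) = (A : ℂ)⁻¹ := by simp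
    rw [e1]
    congr 1
  have hprod := prod_relation R c hR h1 h2 hz i₀
  have hcong := congrArg (rootMultiplicity ((A : ℂ)⁻¹)) hprod
  rw [mult_prod _ _ (fun i _ => hne i), mult_prod _ _ (by
    intro j _ h
    have h3 : (0 : ℂ[X]).comp (C (z ^ (j : ℕ)) * X)
        ∣ ((R i₀).map (Int.castRingHom ℂ)).comp (C (z ^ (j : ℕ)) * X) := by rw [h, zero_comp]
    rw [comp_mul_X_dvd (pow_ne_zero _ hz0)] at h3
    exact hne i₀ (zero_dvd_iff.mp h3))] at hcong
  rw [Finset.sum_congr rfl (fun i _ => hconv i), hcong, hconv i₀]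
  have hterm : ∀ j : Fin l, rootMultiplicity ((A : ℂ)⁻¹)
      (((R i₀).map (Int.castRingHom ℂ)).comp (C (z ^ (j : ℕ)) * X))
      = if (j : ℕ) = 0 then rootMultiplicity ((A : ℂ)⁻¹) ((R i₀).map (Int.castRingHom ℂ))
        else M := by
    intro j
    rw [mult_scale (pow_ne_zero _ hz0) (hne i₀)]
    split_ifs with hj
    · rw [hj, pow_zero, one_mul]
    · rw [mul_comm]
      apply hM1
      apply hz.pow_of_coprime
      rw [Nat.coprime_comm]
      apply (Nat.Prime.coprime_iff_not_dvd hlp.out).mpr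
      intro hdvd
      exact absurd (Nat.le_of_dvd (Nat.pos_of_ne_zero hj) hdvd) (not_le.mpr j.2)
  rw [Finset.sum_congr rfl (fun j _ => hterm j)]
  rw [Fin.sum_univ_eq_sum_range (fun j => if j = 0 then
    rootMultiplicity ((A : ℂ)⁻¹) ((R i₀).map (Int.castRingHom ℂ)) else M) l]
  obtain ⟨l', hl'⟩ : ∃ l', l = l' + 1 := ⟨l - 1, (Nat.sub_add_cancel hlp.out.one_le).symm⟩
  conv_lhs => rw [hl']
  rw [Finset.sum_range_succ']
  simp [hl']
  ring

end deduction

/-- the purely combinatorial conclusion -/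
lemma conclude {l : ℕ} (hl : 2 ≤ l) (x : Fin l → ℕ) (hS : ∑ i, x i ≤ l - 1)
    (h : ∀ i, ∃ M : ℕ, ∑ j, x j = x i + (l - 1) * M) (i j : Fin l) (hij : i ≠ j) :
    x i = 0 ∨ x j = 0 := by
  classical
  obtain ⟨M, hM⟩ := h i
  by_contra hcon
  push Not at hcon
  obtain ⟨hi, hj⟩ := hcon
  have h2 : x i + x j ≤ ∑ t, x t := by
    have : ∑ t ∈ ({i, j} : Finset (Fin l)), x t ≤ ∑ t, x t :=
      Finset.sum_le_sum_of_subset (Finset.subset_univ _)
    rwa [Finset.sum_pair hij] at this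
  rcases Nat.eq_zero_or_pos M with h0 | h0
  · rw [h0] at hM
    omega
  · have h3 : l - 1 ≤ (l - 1) * M := Nat.le_mul_of_pos_right _ h0
    omega

section main

variable {k : Type*} [Field k] [Fintype k] {K : Type*} [Field K] [Algebra k K] [IsAlgClosed K]
  {r : ℕ} (F : MvPolynomial (Fin (r + 1)) k) {l : ℕ} [hlp : Fact l.Prime]
  {ε : k} (hε : ∀ a : k, a ^ l ≠ ε)

/-- the coefficients of the branch hypersurface -/
noncomputable def cB (K : Type*) [Field K] [Algebra k K] (n : ℕ) : ℤ :=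
  ((Bn F n : Set (Fin (r + 1) → K)).ncard : ℤ)
    - ∑ j ∈ Finset.range r, ((Fintype.card k : ℤ) ^ n) ^ j

/-- the coefficients of the cyclic cover -/
noncomputable def cX (K : Type*) [Field K] [Algebra k K] (l n : ℕ) : ℤ :=
  ∑ j ∈ Finset.range (r + 1), ((Fintype.card k : ℤ) ^ n) ^ j
    - ((Dn F l n : Set ((Fin (r + 1) → K) × K)).ncard : ℤ)

lemma card_plane_int {n : ℕ} (hn : 0 < n) :
    ∑ j ∈ Finset.range (r + 1), ((Fintype.card k : ℤ) ^ n) ^ j = ((An k K r n).ncard : ℤ) := by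
  rw [card_plane k K r hn]
  push_cast
  rfl

lemma coeff_ser {c : ℕ → ℤ} {n : ℕ} (hn : 0 < n) : PowerSeries.coeff n (ser c) = c n := by
  rw [ser, PowerSeries.coeff_mk, if_neg hn.ne']

lemma coeff_zero_ser (c : ℕ → ℤ) : PowerSeries.coeff 0 (ser c) = 0 := by
  simp [ser]

lemma q_mod (hq : l ∣ Fintype.card k - 1) : ((Fintype.card k : ℕ) : ZMod l) = 1 := by
  have h0 : 0 < Fintype.card k := Fintype.card_pos
  have h1 : ((Fintype.card k - 1 : ℕ) : ZMod l) = 0 := (ZMod.natCast_eq_zero_iff _ _).mpr hq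
  rw [Nat.cast_sub h0] at h1
  push_cast at h1
  exact sub_eq_zero.mp h1

/-- reduction modulo `l` of the numerator for one cover -/
theorem red_cover (hq : l ∣ Fintype.card k - 1) {PB R : ℤ[X]} (hB : LogCoeffs PB (cB F K))
    (hR : LogCoeffs R (cX F K l)) :
    R.map (Int.castRingHom (ZMod l))
      = (PB.map (Int.castRingHom (ZMod l)) * (1 - X)) ^ (l - 1) := by
  classical
  have hl0 : 0 < l := hlp.out.pos
  apply Polynomial.coe_injective (ZMod l)
  have hG : LD ((PB : PowerSeries ℤ) * fac ((Fintype.card k : ℤ) ^ r) 1)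
      (ser (cB F K) + cs ((Fintype.card k : ℤ) ^ r) 1) :=
    LD_mul hB.toLD (LD_fac _ one_pos)
  have h := red_eq (l := l) (fun d => orb (Phi k K) (sp F l) d) (fun d => orb (Phi k K) (sm F l) d)
    hR.toLD hG (by rw [Polynomial.coeff_coe]; exact hR.1)
    (coeff_zero_mul' (by rw [Polynomial.coeff_coe]; exact hB.1) (coeff_zero_fac _ one_pos))
    (coeff_zero_ser _) (by rw [map_add, coeff_zero_ser, cs_zero, add_zero]) (by
      intro n hn
      rw [coeff_ser hn, cX, card_plane_int (K := K) hn, card_An F hn, card_Dn F hq hn,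
        ← signed F hq hn]
      push_cast; ring) (by
      intro n hn
      rw [map_add, coeff_ser hn, cB]
      have e1 : PowerSeries.coeff n (cs ((Fintype.card k : ℤ) ^ r) 1)
          = -((Fintype.card k : ℤ) ^ n) ^ r := by
        simp only [cs, PowerSeries.coeff_mk]
        rw [if_pos ⟨hn.ne', one_dvd n⟩, Nat.div_one, ← pow_mul, ← pow_mul, mul_comm]
        push_cast; ring
      have e2 := card_plane_int (k := k) (K := K) (r := r) hn
      rw [Finset.sum_range_succ, card_An F hn] at e2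
      rw [e1, ← unsigned F hn]
      push_cast at e2 ⊢
      linear_combination -e2)
  have c1 : red l (R : PowerSeries ℤ)
      = ((R.map (Int.castRingHom (ZMod l)) : (ZMod l)[X]) : PowerSeries (ZMod l)) := by
    rw [Polynomial.polynomial_map_coe]
  have c2 : red l (PB : PowerSeries ℤ)
      = ((PB.map (Int.castRingHom (ZMod l)) : (ZMod l)[X]) : PowerSeries (ZMod l)) := by
    rw [Polynomial.polynomial_map_coe]
  have c3 : red l (fac ((Fintype.card k : ℤ) ^ r) 1)
      = ((1 - X : (ZMod l)[X]) : PowerSeries (ZMod l)) := by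
    ext n
    simp only [red, PowerSeries.coeff_map, coeff_fac, Polynomial.coeff_coe, coeff_sub, coeff_one,
      coeff_X, map_sub]
    have hq1 : (Int.castRingHom (ZMod l)) ((Fintype.card k : ℤ) ^ r) = 1 := by
      rw [map_pow, eq_intCast]
      push_cast
      rw [q_mod hq, one_pow]
    congr 1
    · split_ifs <;> simp
    · by_cases h1 : n = 1
      · rw [if_pos h1, if_pos h1.symm, hq1]
      · rw [if_neg h1, if_neg (fun h => h1 h.symm), map_zero]
  rw [map_mul, c1, c2, c3] at h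
  rw [h, Polynomial.coe_pow, Polynomial.coe_mul]

theorem mult_red_cover (hq : l ∣ Fintype.card k - 1) {PB R : ℤ[X]} (hB : LogCoeffs PB (cB F K))
    (hR : LogCoeffs R (cX F K l)) :
    rootMultiplicity 1 (R.map (Int.castRingHom (ZMod l)))
      = (l - 1) * (1 + rootMultiplicity 1 (PB.map (Int.castRingHom (ZMod l)))) := by
  rw [red_cover F hq hB hR]
  have h1 : (PB.map (Int.castRingHom (ZMod l))) ≠ 0 := by
    intro h
    have h1 := congrArg (fun f : (ZMod l)[X] => f.coeff 0) h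
    simp [coeff_map, hB.1] at h1
  have e : (1 - X : (ZMod l)[X]) = -(X - C 1) := by rw [C_1]; ring
  have h2 : (1 - X : (ZMod l)[X]) ≠ 0 := by
    rw [e]; exact neg_ne_zero.mpr (X_sub_C_ne_zero 1)
  rw [mult_pow (mul_ne_zero h1 h2), rootMultiplicity_mul (mul_ne_zero h1 h2)]
  have h3 : rootMultiplicity 1 (1 - X : (ZMod l)[X]) = 1 := by
    have e3 : (1 - X : (ZMod l)[X]) = C (-1) * (X - C 1) := by
      rw [C_neg, C_1]; ring
    have e4 : (C (-1) : (ZMod l)[X]) ≠ 0 := by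
      rw [Ne, C_eq_zero]; exact neg_ne_zero.mpr one_ne_zero
    rw [e3, rootMultiplicity_mul (mul_ne_zero e4 (X_sub_C_ne_zero 1)), rootMultiplicity_C,
      rootMultiplicity_X_sub_C_self]
  rw [h3, add_comm]

include hε in
/-- main theorem -/
theorem main (hq : l ∣ Fintype.card k - 1) {PB : ℤ[X]} {R : Fin l → ℤ[X]}
    (hB : LogCoeffs PB (cB F K)) (hR : ∀ i : Fin l, LogCoeffs (R i) (cX (tw F ε i) K l))
    {A : ℕ} (hA0 : A ≠ 0) (hA : ((A : ℕ) : ZMod l) = 1) :
    (∑ i, rootMultiplicity ((A : ℚ)⁻¹) ((R i).map (Int.castRingHom ℚ))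
      ≤ (l - 1) * (1 + rootMultiplicity 1 (PB.map (Int.castRingHom (ZMod l))))) ∧
    (¬ (l : ℤ) ∣ PB.eval 1 → ∀ i j : Fin l, i ≠ j →
      rootMultiplicity ((A : ℚ)⁻¹) ((R i).map (Int.castRingHom ℚ)) = 0 ∨
      rootMultiplicity ((A : ℚ)⁻¹) ((R j).map (Int.castRingHom ℚ)) = 0) := by
  have hl2 := hlp.out.two_le
  have h1 : ∀ n : ℕ, 0 < n → l ∣ n → ∀ i j : Fin l,
      cX (tw F ε i) K l n = cX (tw F ε j) K l n := by
    intro n hn hd i j
    unfold cX
    rw [rel_dvd F hε hq hn hd i, rel_dvd F hε hq hn hd j]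
  have h2 : ∀ n : ℕ, 0 < n → ¬ l ∣ n → ∑ i : Fin l, cX (tw F ε i) K l n = 0 := by
    intro n hn hd
    unfold cX
    rw [Finset.sum_sub_distrib, Finset.sum_const, Finset.card_univ, Fintype.card_fin,
      card_plane_int (K := K) hn]
    have h3 := rel_ndvd (K := K) F hε hq hn hd
    have h4 : (∑ i : Fin l, ((Dn (tw F ε i) l n : Set ((Fin (r + 1) → K) × K)).ncard : ℤ))
        = l * ((An k K r n).ncard : ℤ) := by exact_mod_cast h3
    rw [h4, nsmul_eq_mul, sub_self]
  have hB' : ∀ i : Fin l, LogCoeffs PB (cB (tw F ε i) K) := by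
    intro i
    have e : cB (tw F ε i) K = cB F K := by
      ext n
      unfold cB
      rw [Bn_tw F hε]
    rw [e]; exact hB
  have hrel : ∀ i₀ : Fin l, ∃ M : ℕ,
      ∑ i, rootMultiplicity ((A : ℚ)⁻¹) ((R i).map (Int.castRingHom ℚ))
        = rootMultiplicity ((A : ℚ)⁻¹) ((R i₀).map (Int.castRingHom ℚ)) + (l - 1) * M ∧
      rootMultiplicity ((A : ℚ)⁻¹) ((R i₀).map (Int.castRingHom ℚ)) + (l - 1) * M
        ≤ (l - 1) * (1 + rootMultiplicity 1 (PB.map (Int.castRingHom (ZMod l)))) := by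
    intro i₀
    obtain ⟨M, hM1, hM2⟩ := mult_relation R (fun i => cX (tw F ε i) K l) hR h1 h2 hA0 hA i₀
    refine ⟨M, hM1, ?_⟩
    rw [← mult_red_cover (tw F ε i₀) hq (hB' i₀) (hR i₀)]
    exact hM2
  have hpos : 0 < l := hlp.out.pos
  have hfirst : ∑ i, rootMultiplicity ((A : ℚ)⁻¹) ((R i).map (Int.castRingHom ℚ))
      ≤ (l - 1) * (1 + rootMultiplicity 1 (PB.map (Int.castRingHom (ZMod l)))) := by
    obtain ⟨M, hM1, hM2⟩ := hrel ⟨0, hpos⟩
    rw [hM1]; exact hM2
  refine ⟨hfirst, ?_⟩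
  intro hnd i j hij
  have hmu : rootMultiplicity 1 (PB.map (Int.castRingHom (ZMod l))) = 0 := by
    apply rootMultiplicity_eq_zero
    intro hroot
    apply hnd
    have e : eval 1 (PB.map (Int.castRingHom (ZMod l))) = ((PB.eval 1 : ℤ) : ZMod l) := by
      have := eval_map_apply (Int.castRingHom (ZMod l)) (p := PB) 1
      simpa using this
    rw [IsRoot, e] at hroot
    exact (ZMod.intCast_zmod_eq_zero_iff_dvd _ _).mp hroot
  rw [hmu, add_zero, mul_one] at hfirst
  exact conclude hl2 _ hfirst (fun i₀ => by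
    obtain ⟨M, hM1, _⟩ := hrel i₀
    exact ⟨M, hM1⟩) i j hij

end main

end Pool.Agent.W555.TC
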