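import Pool.Agent.W555.TC.LD

set_option autoImplicit false
set_option maxHeartbeats 1000000

namespace Pool.Agent.W555.TC
open PowerSeries

section modl

variable (l : ℕ)

/-- reduction modulo `l` -/
noncomputable abbrev red : ℤ⟦X⟧ →+* (ZMod l)⟦X⟧ := PowerSeries.map (Int.castRingHom (ZMod l))

lemma red_fac_one (d : ℕ) :
    red l (fac 1 d) = (((1 - Polynomial.X ^ d : Polynomial (ZMod l))) : (ZMod l)⟦X⟧) := by
  ext n
  simp only [red, coeff_map, coeff_fac, Polynomial.coeff_coe, Polynomial.coeff_sub,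
    Polynomial.coeff_one, Polynomial.coeff_X_pow, map_sub]
  congr 1
  · split_ifs <;> simp
  · split_ifs <;> simp

lemma red_gs [hl : Fact l.Prime] {d : ℕ} (hd : 0 < d) :
    red l (gs ℤ l d) = red l (fac 1 d) ^ (l - 1) := by
  have h1 := congrArg (red l) (fac_mul_gs (R := ℤ) l d)
  rw [map_mul, red_fac_one, red_fac_one] at h1
  have h2 : (1 - Polynomial.X ^ (d * l) : Polynomial (ZMod l)) = (1 - Polynomial.X ^ d) ^ l := by
    rw [sub_pow_char, one_pow, ← pow_mul]
  rw [h2, Polynomial.coe_pow] at h1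
  have hne : ((1 - Polynomial.X ^ d : Polynomial (ZMod l)) : (ZMod l)⟦X⟧) ≠ 0 := by
    rw [← red_fac_one]
    intro h
    have h3 := congrArg (coeff 0) h
    rw [red, coeff_map, coeff_zero_fac _ hd] at h3
    simp at h3
  rw [red_fac_one]
  apply mul_left_cancel₀ hne
  rw [h1, ← pow_succ', Nat.sub_add_cancel hl.out.one_le]

/-- product over the closed points of degree at most `K` -/
noncomputable def prodS (bp bm : ℕ → ℕ) (K : ℕ) : ℤ⟦X⟧ :=
  ∏ d ∈ Finset.Icc 1 K, (fac 1 d ^ ((l - 1) * bp d) * gs ℤ l d ^ bm d)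

variable {l}

lemma coeff_zero_prodS (hl : 0 < l) (bp bm : ℕ → ℕ) (K : ℕ) : coeff 0 (prodS l bp bm K) = 1 := by
  unfold prodS
  apply coeff_zero_prod'
  intro d hd
  have hd0 : 0 < d := (Finset.mem_Icc.mp hd).1
  exact coeff_zero_mul' (coeff_zero_pow' (coeff_zero_fac _ hd0) _)
    (coeff_zero_pow' (coeff_zero_gs hl hd0) _)

/-- the logarithmic derivative -/
noncomputable def logS (l : ℕ) (bp bm : ℕ → ℕ) (K : ℕ) : ℤ⟦X⟧ :=
  ∑ d ∈ Finset.Icc 1 K, ((((l - 1) * bp d : ℕ) : ℤ⟦X⟧) * cs 1 d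
    + (bm d : ℤ⟦X⟧) * (cs 1 (d * l) - cs 1 d))

lemma LD_prodS (hl : 0 < l) (bp bm : ℕ → ℕ) (K : ℕ) : LD (prodS l bp bm K) (logS l bp bm K) := by
  unfold prodS logS
  apply LD_prod
  intro d hd
  have hd0 : 0 < d := (Finset.mem_Icc.mp hd).1
  exact LD_mul (LD_pow (LD_fac 1 hd0) _) (LD_pow (LD_gs hl hd0) _)

lemma coeff_cs_one {d n : ℕ} (hn : 0 < n) :
    coeff n (cs (1 : ℤ) d) = if d ∣ n then -(d : ℤ) else 0 := by
  simp only [cs, coeff_mk, one_pow, mul_one]
  by_cases h : d ∣ n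
  · rw [if_pos ⟨hn.ne', h⟩, if_pos h]
  · rw [if_neg (fun h' => h h'.2), if_neg h]

lemma coeff_logS (hl : 0 < l) (bp bm : ℕ → ℕ) (K n : ℕ) (hn : 0 < n) (hK : n ≤ K) :
    coeff n (logS l bp bm K)
      = -∑ d ∈ n.divisors, (d : ℤ) * (((l : ℤ) - 1) * bp d
          + ((if l ∣ n / d then (l : ℤ) else 0) - 1) * bm d) := by
  unfold logS
  rw [map_sum, ← Finset.sum_neg_distrib]
  have hsub : n.divisors ⊆ Finset.Icc 1 K := by
    intro d hd
    rw [Finset.mem_Icc]
    exact ⟨Nat.pos_of_mem_divisors hd, (Nat.divisor_le hd).trans hK⟩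
  rw [← Finset.sum_subset hsub]
  · apply Finset.sum_congr rfl
    intro d hd
    have hdn : d ∣ n := Nat.dvd_of_mem_divisors hd
    have hd0 : 0 < d := Nat.pos_of_mem_divisors hd
    rw [map_add, coeff_natCast_mul, coeff_natCast_mul, map_sub, coeff_cs_one hn, coeff_cs_one hn,
      if_pos hdn]
    have h1 : d * l ∣ n ↔ l ∣ n / d := by
      obtain ⟨e, rfl⟩ := hdn
      rw [Nat.mul_div_cancel_left _ hd0]
      exact Nat.mul_dvd_mul_iff_left hd0
    rw [Nat.cast_mul, Nat.cast_sub hl]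
    by_cases h2 : l ∣ n / d
    · rw [if_pos (h1.mpr h2), if_pos h2]; push_cast; ring
    · rw [if_neg (fun h => h2 (h1.mp h)), if_neg h2]; push_cast; ring
  · intro d _ hd
    have hdn : ¬ (d ∣ n) := fun h => hd (Nat.mem_divisors.mpr ⟨h, hn.ne'⟩)
    have hdn' : ¬ (d * l ∣ n) := fun h => hdn (dvd_trans (Dvd.intro l rfl) h)
    rw [map_add, coeff_natCast_mul, coeff_natCast_mul, map_sub, coeff_cs_one hn, coeff_cs_one hn,
      if_neg hdn, if_neg hdn']
    ring

lemma coeff_zero_logS (bp bm : ℕ → ℕ) (K : ℕ) : coeff 0 (logS l bp bm K) = 0 := by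
  unfold logS
  rw [map_sum]
  apply Finset.sum_eq_zero
  intro d _
  rw [map_add, coeff_natCast_mul, coeff_natCast_mul, map_sub, cs_zero, cs_zero]
  ring

/-- the zeta function of the cover and the one of the complement of the branch locus -/
theorem red_eq [hl : Fact l.Prime] (bp bm : ℕ → ℕ) {L G c g : ℤ⟦X⟧} (hL : LD L c) (hG : LD G g)
    (hL0 : coeff 0 L = 1) (hG0 : coeff 0 G = 1) (hc0 : coeff 0 c = 0) (hg0 : coeff 0 g = 0)
    (hc : ∀ n : ℕ, 0 < n → coeff n c = -∑ d ∈ n.divisors, (d : ℤ) * (((l : ℤ) - 1) * bp d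
          + ((if l ∣ n / d then (l : ℤ) else 0) - 1) * bm d))
    (hg : ∀ n : ℕ, 0 < n → coeff n g = -∑ d ∈ n.divisors, (d : ℤ) * (bp d + bm d)) :
    red l L = (red l G) ^ (l - 1) := by
  have hl0 : 0 < l := hl.out.pos
  have hGl : LD (G ^ (l - 1)) (((l - 1 : ℕ) : ℤ⟦X⟧) * g) := LD_pow hG _
  rw [← map_pow]
  ext n
  have h1 : coeff n L = coeff n (prodS l bp bm n) := by
    apply LD_unique hL (LD_prodS hl0 bp bm n) hc0 (coeff_zero_logS bp bm n) hL0
      (coeff_zero_prodS hl0 bp bm n) n _ n le_rfl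
    intro k hk
    rcases Nat.eq_zero_or_pos k with rfl | hk0
    · rw [hc0, coeff_zero_logS]
    · rw [hc k hk0, coeff_logS hl0 bp bm n k hk0 hk]
  have h2 : coeff n (G ^ (l - 1)) = coeff n (prodS l (fun d => bp d + bm d) (fun _ => 0) n) := by
    apply LD_unique hGl (LD_prodS hl0 _ _ n) (by rw [coeff_natCast_mul, hg0, mul_zero])
      (coeff_zero_logS _ _ n) (coeff_zero_pow' hG0 _) (coeff_zero_prodS hl0 _ _ n) n _ n le_rfl
    intro k hk
    rcases Nat.eq_zero_or_pos k with rfl | hk0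
    · rw [coeff_natCast_mul, hg0, coeff_zero_logS, mul_zero]
    · rw [coeff_natCast_mul, hg k hk0, coeff_logS hl0 _ _ n k hk0 hk, Nat.cast_sub hl0, mul_neg,
        Finset.mul_sum]
      congr 1
      apply Finset.sum_congr rfl
      intro d _
      push_cast; ring
  have h3 : red l (prodS l bp bm n)
      = red l (prodS l (fun d => bp d + bm d) (fun _ => 0) n) := by
    unfold prodS
    rw [map_prod, map_prod]
    apply Finset.prod_congr rfl
    intro d hd
    have hd0 : 0 < d := (Finset.mem_Icc.mp hd).1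
    rw [map_mul, map_pow, map_pow, map_mul, map_pow, map_pow, red_gs l hd0, ← pow_mul, ← pow_add,
      pow_zero, mul_one, mul_add]
  have h4 := congrArg (coeff n) h3
  simp only [red, coeff_map] at h4 ⊢
  rw [h1, h2, h4]

end modl

end Pool.Agent.W555.TC
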