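import Mathlib

set_option autoImplicit false
set_option maxHeartbeats 1000000

namespace Pool.Agent.W555.TC
open Function

variable {Y : Type*} [DecidableEq Y] (Φ : Y → Y)

/-- the number of elements of a finite invariant set of points of period `d` is divisible by `d` -/
lemma dvd_card {d : ℕ} (hd : 0 < d) : ∀ (m : ℕ) (A : Finset Y), A.card = m →
    (∀ z ∈ A, Φ z ∈ A) → (∀ z ∈ A, minimalPeriod Φ z = d) → d ∣ A.card := by
  intro m
  induction m using Nat.strong_induction_on with
  | _ m ih =>
    intro A hA hinv hper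
    rcases A.eq_empty_or_nonempty with rfl | ⟨z, hz⟩
    · simp
    · have hmem : ∀ i : ℕ, Φ^[i] z ∈ A := by
        intro i
        induction i with
        | zero => simpa using hz
        | succ i ih => rw [iterate_succ_apply']; exact hinv _ ih
      set O : Finset Y := (Finset.range d).image (fun i => Φ^[i] z) with hO
      have hOA : O ⊆ A := by
        intro w hw
        obtain ⟨i, _, rfl⟩ := Finset.mem_image.mp hw
        exact hmem i
      have hOall : ∀ i : ℕ, Φ^[i] z ∈ O := by
        intro i
        rw [← iterate_mod_minimalPeriod_eq, hper z hz]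
        exact Finset.mem_image.mpr ⟨i % d, Finset.mem_range.mpr (Nat.mod_lt _ hd), rfl⟩
      have hOcard : O.card = d := by
        rw [hO, Finset.card_image_of_injOn, Finset.card_range]
        intro i hi j hj hij
        have h := iterate_injOn_Iio_minimalPeriod (f := Φ) (x := z)
        rw [hper z hz] at h
        exact h (by simpa using hi) (by simpa using hj) hij
      have hcard : (A \ O).card + O.card = A.card := Finset.card_sdiff_add_card_eq_card hOA
      have hlt : (A \ O).card < m := by omega
      have := ih _ hlt (A \ O) rfl (by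
        intro w hw
        rw [Finset.mem_sdiff] at hw ⊢
        refine ⟨hinv w hw.1, fun h => hw.2 ?_⟩
        obtain ⟨i, _, hi⟩ := Finset.mem_image.mp h
        have hw' : Φ^[d] w = w := by
          rw [← hper w hw.1]; exact iterate_minimalPeriod
        have : w = Φ^[(d - 1) + i] z := by
          rw [iterate_add_apply, hi, ← iterate_succ_apply, Nat.succ_eq_add_one,
            Nat.sub_add_cancel hd, hw']
        rw [this]
        exact hOall _) (by
        intro w hw
        exact hper w (Finset.mem_sdiff.mp hw).1)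
      rw [← hcard, hOcard]
      exact Nat.dvd_add this (dvd_refl d)

variable (s : Y → Prop)

/-- number of orbits of length `d` on which `s` holds -/
noncomputable def orb (d : ℕ) : ℕ := {z | minimalPeriod Φ z = d ∧ s z}.ncard / d

variable (hfin : ∀ n : ℕ, 0 < n → {z | IsPeriodicPt Φ n z}.Finite)

include hfin in
lemma ncard_eq (hs : ∀ z, s z → s (Φ z)) {d : ℕ} (hd : 0 < d) :
    {z | minimalPeriod Φ z = d ∧ s z}.ncard = d * orb Φ s d := by
  have hF : {z | minimalPeriod Φ z = d ∧ s z}.Finite := by
    apply (hfin d hd).subset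
    rintro z ⟨h, _⟩
    show IsPeriodicPt Φ d z
    rw [← h]; exact isPeriodicPt_minimalPeriod Φ z
  unfold orb
  rw [Nat.mul_div_cancel']
  rw [Set.ncard_eq_toFinset_card _ hF]
  apply dvd_card Φ hd _ _ rfl
  · intro z hz
    rw [Set.Finite.mem_toFinset] at hz ⊢
    refine ⟨?_, hs z hz.2⟩
    rw [minimalPeriod_apply]
    · exact hz.1
    · rw [mem_periodicPts]
      refine ⟨d, hd, ?_⟩
      rw [← hz.1]; exact isPeriodicPt_minimalPeriod Φ z
  · intro z hz
    rw [Set.Finite.mem_toFinset] at hz
    exact hz.1

include hfin in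
/-- the periodic points are partitioned by their periods -/
lemma ncard_sum (Q : ℕ → Y → Prop) {n : ℕ} (hn : 0 < n) :
    {z | IsPeriodicPt Φ n z ∧ Q (minimalPeriod Φ z) z}.ncard
      = ∑ d ∈ n.divisors, {z | minimalPeriod Φ z = d ∧ Q d z}.ncard := by
  classical
  have hF : {z | IsPeriodicPt Φ n z ∧ Q (minimalPeriod Φ z) z}.Finite :=
    (hfin n hn).subset fun z hz => hz.1
  rw [Set.ncard_eq_toFinset_card _ hF]
  rw [Finset.card_eq_sum_card_fiberwise (f := fun z => minimalPeriod Φ z) (t := n.divisors)]
  · apply Finset.sum_congr rfl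
    intro d hd
    rw [← Set.ncard_coe_finset]
    congr 1
    ext z
    simp only [Finset.coe_filter, Set.Finite.mem_toFinset, Set.mem_setOf_eq]
    constructor
    · rintro ⟨⟨_, h2⟩, h3⟩
      exact ⟨h3, h3 ▸ h2⟩
    · rintro ⟨h1, h2⟩
      refine ⟨⟨?_, h1 ▸ h2⟩, h1⟩
      have : d ∣ n := Nat.dvd_of_mem_divisors hd
      exact (isPeriodicPt_iff_minimalPeriod_dvd).mpr (h1 ▸ this)
  · intro z hz
    have hz' := (Set.Finite.mem_toFinset hF).mp (by simpa using hz)
    simp only [Finset.mem_coe, Nat.mem_divisors]
    exact ⟨hz'.1.minimalPeriod_dvd, hn.ne'⟩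

end Pool.Agent.W555.TC
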