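import Pool.Agent.W555.TC.Main

set_option autoImplicit false
set_option maxHeartbeats 1000000

namespace Pool.Agent.W555.TC
open Polynomial

variable (l : ℕ) [hlp : Fact l.Prime]

lemma cyc_pow_mod (b : ℕ) : cyclotomic (l ^ b) (ZMod l) = (X - C 1) ^ Nat.totient (l ^ b) := by
  rcases Nat.eq_zero_or_pos b with rfl | hb
  · simp
  · have h := cyclotomic_mul_prime_pow_eq (ZMod l) (p := l) (m := 1)
      (fun h => hlp.out.one_lt.ne' (Nat.dvd_one.mp h)) hb
    rw [mul_one, cyclotomic_one] at h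
    rw [h, Nat.totient_prime_pow hlp.out hb, C_1]
    congr 1
    obtain ⟨c, rfl⟩ : ∃ c, b = c + 1 := ⟨b - 1, by omega⟩
    rw [Nat.add_sub_cancel, pow_succ, Nat.mul_sub, mul_one]

lemma cyc_pow_unit (b : ℕ) : IsUnit ((cyclotomic (l ^ b) ℤ).coeff 0) := by
  rcases Nat.eq_zero_or_pos b with rfl | hb
  · simp
  · rw [cyclotomic_coeff_zero ℤ (Nat.one_lt_pow hb.ne' hlp.out.one_lt)]
    exact isUnit_one

/-- multiplicity at a primitive root of unity -/
lemma mult_prim {E : Type*} [Field E] [CharZero E] {PQ : ℚ[X]} (hPQ : PQ ≠ 0) {n : ℕ}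
    (hn : 0 < n) {z : E} (hz : IsPrimitiveRoot z n) :
    rootMultiplicity z (PQ.map (algebraMap ℚ E)) = multiplicity (cyclotomic n ℚ) PQ := by
  have hirr : Irreducible (cyclotomic n ℚ) := cyclotomic.irreducible_rat hn
  have hfin : FiniteMultiplicity (cyclotomic n ℚ) PQ :=
    FiniteMultiplicity.of_not_isUnit hirr.not_isUnit hPQ
  obtain ⟨S, hS, hnS⟩ := hfin.exists_eq_pow_mul_and_not_dvd
  set M := multiplicity (cyclotomic n ℚ) PQ with hM
  have hmin : cyclotomic n ℚ = minpoly ℚ z := cyclotomic_eq_minpoly_rat hz hn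
  have hSC : ¬ IsRoot (S.map (algebraMap ℚ E)) z := by
    intro h
    apply hnS
    rw [hmin]
    apply minpoly.dvd
    rw [aeval_def, ← eval_map]
    exact h
  rw [hS, Polynomial.map_mul, Polynomial.map_pow, map_cyclotomic]
  have hcyc0 : cyclotomic n E ≠ 0 := cyclotomic_ne_zero n E
  have hS0 : S.map (algebraMap ℚ E) ≠ 0 := by
    intro h
    apply hSC
    rw [h]
    simp
  have hnz : cyclotomic n E ^ M * S.map (algebraMap ℚ E) ≠ 0 :=
    mul_ne_zero (pow_ne_zero _ hcyc0) hS0
  have h1 : rootMultiplicity z (cyclotomic n E) = 1 := by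
    apply le_antisymm
    · have : NeZero ((n : ℕ) : E) := ⟨by exact_mod_cast hn.ne'⟩
      exact rootMultiplicity_le_one_of_separable (separable_cyclotomic n E) z
    · rw [Nat.succ_le_iff, rootMultiplicity_pos hcyc0]
      exact hz.isRoot_cyclotomic hn
  rw [rootMultiplicity_mul hnz, rootMultiplicity_eq_zero hSC, add_zero, mult_pow hcyc0, h1,
    mul_one]

/-- multiplicities of all the `z / A`, `z` of `l`-power order, are bounded by the multiplicity of
`1` modulo `l` -/
theorem mult_bound_pow {E : Type*} [Field E] [CharZero E] [IsAlgClosed E] {P : ℤ[X]}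
    (hP : P.coeff 0 = 1) {A : ℕ} (hA0 : A ≠ 0) (hA : ((A : ℕ) : ZMod l) = 1) (a : ℕ) :
    ∑ z ∈ nthRootsFinset (l ^ a) (1 : E),
        rootMultiplicity ((A : E)⁻¹ * z) (P.map (Int.castRingHom E))
      ≤ rootMultiplicity 1 (P.map (Int.castRingHom (ZMod l))) := by
  classical
  have hla : 0 < l ^ a := pow_pos hlp.out.pos a
  have hAQ : (A : ℚ) ≠ 0 := by exact_mod_cast hA0
  have hAE : (A : E) ≠ 0 := by exact_mod_cast hA0
  have hAQ' : (A : ℚ)⁻¹ ≠ 0 := inv_ne_zero hAQ
  set PQ : ℚ[X] := P.map (Int.castRingHom ℚ) with hPQ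
  have hPQ0 : PQ ≠ 0 := by
    intro h
    have h1 := congrArg (fun f : ℚ[X] => f.coeff 0) h
    simp [hPQ, coeff_map, hP] at h1
  set P' : ℚ[X] := PQ.comp (C (A : ℚ)⁻¹ * X) with hP'
  have hP'0 : P' ≠ 0 := by
    intro h
    apply hPQ0
    have h1 := comp_comp_inv hAQ PQ
    rw [← h1, ← hP', h, zero_comp]
  set M : ℕ → ℕ := fun b => multiplicity (cyclotomic (l ^ b) ℚ) P' with hM
  -- the left hand side
  have hPC : P.map (Int.castRingHom E) = PQ.map (algebraMap ℚ E) := by
    rw [hPQ, Polynomial.map_map]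
    congr 1
    exact RingHom.ext_int _ _
  have hPC0 : PQ.map (algebraMap ℚ E) ≠ 0 := (Polynomial.map_ne_zero_iff
    (algebraMap ℚ E).injective).mpr hPQ0
  have hcomp : P'.map (algebraMap ℚ E)
      = (PQ.map (algebraMap ℚ E)).comp (C (A : E)⁻¹ * X) := by
    rw [hP', Polynomial.map_comp, Polynomial.map_mul, map_C, map_X]
    congr 3
    simp
  have hterm : ∀ b, ∀ z : E, IsPrimitiveRoot z (l ^ b) →
      rootMultiplicity ((A : E)⁻¹ * z) (P.map (Int.castRingHom E)) = M b := by
    intro b z hz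
    rw [hPC, ← mult_scale (inv_ne_zero hAE) hPC0, ← hcomp,
      mult_prim hP'0 (pow_pos hlp.out.pos b) hz]
  have : NeZero ((l ^ a : ℕ) : E) := ⟨by exact_mod_cast hla.ne'⟩
  have : NeZero (l ^ a) := ⟨hla.ne'⟩
  obtain ⟨z₀, hz₀⟩ := HasEnoughRootsOfUnity.exists_primitiveRoot E (l ^ a)
  have hLHS : ∑ z ∈ nthRootsFinset (l ^ a) (1 : E),
        rootMultiplicity ((A : E)⁻¹ * z) (P.map (Int.castRingHom E))
      = ∑ b ∈ Finset.range (a + 1), Nat.totient (l ^ b) * M b := by
    rw [IsPrimitiveRoot.nthRoots_one_eq_biUnion_primitiveRoots, Finset.sum_biUnion]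
    · rw [Nat.divisors_prime_pow hlp.out, Finset.sum_map]
      apply Finset.sum_congr rfl
      intro b hb
      have hb' : b ≤ a := by have := Finset.mem_range.mp hb; omega
      show ∑ z ∈ primitiveRoots (l ^ b) E, _ = _
      rw [Finset.sum_congr rfl (fun z hz => hterm b z (isPrimitiveRoot_of_mem_primitiveRoots hz)),
        Finset.sum_const, smul_eq_mul]
      congr 1
      have h2 : IsPrimitiveRoot (z₀ ^ (l ^ (a - b))) (l ^ b) := by
        apply hz₀.pow hla
        rw [← pow_add]; congr 1; omega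
      exact h2.card_primitiveRoots
    · intro i _ j _ hij
      exact IsPrimitiveRoot.disjoint hij
  -- divisibility
  have h2 : ∏ b ∈ Finset.range (a + 1), cyclotomic (l ^ b) ℚ ^ M b ∣ P' := by
    apply Finset.prod_dvd_of_coprime
    · intro i _ j _ hij
      apply IsCoprime.pow
      apply cyclotomic.isCoprime_rat
      intro h
      exact hij (Nat.pow_right_injective hlp.out.two_le h)
    · intro b _
      exact pow_multiplicity_dvd _ _
  have h4 : (∏ b ∈ Finset.range (a + 1), cyclotomic (l ^ b) ℚ ^ M b).comp (C (A : ℚ) * X)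
      ∣ PQ := by
    rw [← comp_comp_inv hAQ PQ, ← hP', comp_mul_X_dvd hAQ]
    exact h2
  set Q : ℤ[X] := (∏ b ∈ Finset.range (a + 1), cyclotomic (l ^ b) ℤ ^ M b).comp (C (A : ℤ) * X)
    with hQ
  have hQp : Q.IsPrimitive := by
    apply prim_of_coeff_zero
    rw [hQ, comp_C_mul_X_coeff, pow_zero, mul_one, coeff_zero_prod]
    apply Finset.prod_induction _ IsUnit (fun _ _ => IsUnit.mul) isUnit_one
    intro b _
    rw [coeff_zero_eq_eval_zero, eval_pow, ← coeff_zero_eq_eval_zero]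
    exact (cyc_pow_unit l b).pow _
  have h5 : Q.map (Int.castRingHom ℚ) ∣ P.map (Int.castRingHom ℚ) := by
    rw [hQ, Polynomial.map_comp, Polynomial.map_mul, map_C, map_X, Polynomial.map_prod]
    simp only [Polynomial.map_pow, map_cyclotomic]
    have e2 : (Int.castRingHom ℚ) (A : ℤ) = (A : ℚ) := by simp
    rw [e2]
    exact h4
  have h6 : Q ∣ P := (IsPrimitive.Int.dvd_iff_map_cast_dvd_map_cast Q P hQp).mpr h5
  have h7 : Q.map (Int.castRingHom (ZMod l)) ∣ P.map (Int.castRingHom (ZMod l)) :=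
    Polynomial.map_dvd _ h6
  have h8 : Q.map (Int.castRingHom (ZMod l))
      = (X - C 1) ^ (∑ b ∈ Finset.range (a + 1), Nat.totient (l ^ b) * M b) := by
    rw [hQ, Polynomial.map_comp, Polynomial.map_mul, map_C, map_X, Polynomial.map_prod]
    simp only [Polynomial.map_pow, map_cyclotomic, cyc_pow_mod]
    have e2 : (Int.castRingHom (ZMod l)) (A : ℤ) = 1 := by
      rw [eq_intCast]
      push_cast
      exact hA
    rw [e2, C_1, one_mul, comp_X]
    simp only [← pow_mul]
    rw [Finset.prod_pow_eq_pow_sum]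
  rw [h8] at h7
  have hne : P.map (Int.castRingHom (ZMod l)) ≠ 0 := by
    intro h
    have h1 := congrArg (fun f : (ZMod l)[X] => f.coeff 0) h
    simp [coeff_map, hP] at h1
  rw [hLHS]
  exact (le_rootMultiplicity_iff hne).mpr h7

end Pool.Agent.W555.TC
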