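import Pool.Agent.W555.TC.Cnt

set_option autoImplicit false
set_option maxHeartbeats 1000000

namespace Pool.Agent.W555.TC
open Function Polynomial

section frob

variable (k : Type*) [Field k] [Fintype k] (K : Type*) [Field K] [Algebra k K]

/-- the Frobenius endomorphism -/
noncomputable def fr : K →ₐ[k] K := FiniteField.frobeniusAlgHom k K

lemma fr_apply (x : K) : fr k K x = x ^ Fintype.card k := rfl

lemma fr_iter (n : ℕ) (x : K) : (fr k K)^[n] x = x ^ (Fintype.card k ^ n) := by
  induction n generalizing x with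
  | zero => simp
  | succ n ih =>
    rw [iterate_succ_apply, fr_apply, ih, ← pow_mul, pow_succ']

lemma fr_iter_mul (n : ℕ) (x y : K) :
    (fr k K)^[n] (x * y) = (fr k K)^[n] x * (fr k K)^[n] y := by
  rw [fr_iter, fr_iter, fr_iter, mul_pow]

lemma fr_iter_pow (n m : ℕ) (x : K) : (fr k K)^[n] (x ^ m) = ((fr k K)^[n] x) ^ m := by
  rw [fr_iter, fr_iter, ← pow_mul, ← pow_mul, mul_comm]

lemma fr_iter_inv (n : ℕ) (x : K) : (fr k K)^[n] (x⁻¹) = ((fr k K)^[n] x)⁻¹ := by
  rw [fr_iter, fr_iter, inv_pow]

lemma fr_iter_one (n : ℕ) : (fr k K)^[n] (1 : K) = 1 := by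
  rw [fr_iter, one_pow]

lemma fr_iter_alg (n : ℕ) (x : k) : (fr k K)^[n] (algebraMap k K x) = algebraMap k K x := by
  induction n with
  | zero => simp
  | succ n ih => rw [iterate_succ_apply, AlgHom.commutes, ih]

variable {ι : Type*}

/-- Frobenius on vectors -/
noncomputable def Phi (v : ι → K) : ι → K := fun i => fr k K (v i)

lemma Phi_iter (n : ℕ) (v : ι → K) (i : ι) : (Phi k K)^[n] v i = (fr k K)^[n] (v i) := by
  induction n generalizing v with
  | zero => simp
  | succ n ih => rw [iterate_succ_apply, iterate_succ_apply, ih]; rfl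

lemma per_iff (n : ℕ) (v : ι → K) :
    IsPeriodicPt (Phi k K) n v ↔ ∀ i, v i ^ (Fintype.card k ^ n) = v i := by
  unfold IsPeriodicPt IsFixedPt
  rw [funext_iff]
  simp only [Phi_iter, fr_iter]

lemma fr_aeval (F : MvPolynomial ι k) (v : ι → K) :
    MvPolynomial.aeval (Phi k K v) F = fr k K (MvPolynomial.aeval v F) := by
  rw [MvPolynomial.comp_aeval_apply]
  rfl

lemma fr_iter_aeval (F : MvPolynomial ι k) (n : ℕ) (v : ι → K) :
    MvPolynomial.aeval ((Phi k K)^[n] v) F = (fr k K)^[n] (MvPolynomial.aeval v F) := by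
  induction n generalizing v with
  | zero => simp
  | succ n ih => rw [iterate_succ_apply, iterate_succ_apply, ih, fr_aeval]

/-- fixed points of a power of Frobenius -/
def Fix (n : ℕ) : Set K := {a | a ^ (Fintype.card k ^ n) = a}

lemma Fix_eq {n : ℕ} (hn : 0 < n) :
    Fix k K n = (X ^ (Fintype.card k ^ n) - X : K[X]).rootSet K := by
  have hq : 1 < Fintype.card k := Fintype.one_lt_card
  have h1 : 1 < Fintype.card k ^ n := Nat.one_lt_pow hn.ne' hq
  have hne : (X ^ (Fintype.card k ^ n) - X : K[X]) ≠ 0 :=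
    FiniteField.X_pow_card_sub_X_ne_zero K h1
  ext a
  rw [mem_rootSet]
  simp only [Fix, Set.mem_setOf_eq, map_sub, map_pow, aeval_X, sub_eq_zero]
  exact ⟨fun h => ⟨hne, h⟩, fun h => h.2⟩

lemma Fix_finite {n : ℕ} (hn : 0 < n) : (Fix k K n).Finite := by
  rw [Fix_eq k K hn]; exact rootSet_finite _ _

lemma Fix_ncard [IsAlgClosed K] {n : ℕ} (hn : 0 < n) : (Fix k K n).ncard = Fintype.card k ^ n := by
  have hq : 1 < Fintype.card k := Fintype.one_lt_card
  have h1 : 1 < Fintype.card k ^ n := Nat.one_lt_pow hn.ne' hq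
  obtain ⟨p, hp⟩ := CharP.exists k
  have := hp
  have : CharP K p := charP_of_injective_algebraMap (algebraMap k K).injective p
  have hpq : p ∣ Fintype.card k ^ n := by
    apply Dvd.dvd.pow _ hn.ne'
    rw [← CharP.cast_eq_zero_iff k p, FiniteField.cast_card_eq_zero]
  have hsep : (X ^ (Fintype.card k ^ n) - X : K[X]).Separable := galois_poly_separable p _ hpq
  have hcard := card_rootSet_eq_natDegree (K := K) hsep (IsAlgClosed.splits _)
  rw [Fix_eq k K hn, Set.ncard_eq_toFinset_card']
  rw [Set.toFinset_card, hcard]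
  exact FiniteField.X_pow_card_sub_X_natDegree_eq K h1

lemma Fix_one_eq_range [IsAlgClosed K] : Fix k K 1 = Set.range (algebraMap k K) := by
  symm
  apply Set.eq_of_subset_of_ncard_le _ _ (Fix_finite k K one_pos)
  · rintro _ ⟨a, rfl⟩
    show (algebraMap k K a) ^ (Fintype.card k ^ 1) = algebraMap k K a
    rw [pow_one, ← map_pow, FiniteField.pow_card]
  · rw [Fix_ncard k K one_pos, pow_one, ← Set.image_univ,
      Set.ncard_image_of_injective _ (algebraMap k K).injective, Set.ncard_univ,
      Nat.card_eq_fintype_card]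

lemma fix_finite [Finite ι] {n : ℕ} (hn : 0 < n) :
    {z : ι → K | IsPeriodicPt (Phi k K) n z}.Finite := by
  apply (Set.Finite.pi (fun _ : ι => Fix_finite k K hn)).subset
  intro v hv i _
  exact (per_iff k K n v).mp hv i

end frob

section plane

/-- normalised homogeneous coordinates of a point of projective space: the first nonzero
coordinate is `1` -/
def Nrm {K : Type*} [Field K] {r : ℕ} (v : Fin (r + 1) → K) : Prop :=
  ∃ i, v i = 1 ∧ ∀ j < i, v j = 0

variable (k : Type*) [Field k] [Fintype k] (K : Type*) [Field K] [Algebra k K]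

/-- all points of projective space over the extension of degree `n` -/
def An (r n : ℕ) : Set (Fin (r + 1) → K) := {v | IsPeriodicPt (Phi k K) n v ∧ Nrm v}

/-- the cell with pivot `i` -/
def piece (r n : ℕ) (i : Fin (r + 1)) (j : Fin (r + 1)) : Set K :=
  if j < i then {0} else if j = i then {1} else Fix k K n

lemma An_eq (r n : ℕ) : An k K r n = ⋃ i : Fin (r + 1), Set.pi Set.univ (piece k K r n i) := by
  have hne : Fintype.card k ^ n ≠ 0 := pow_ne_zero _ Fintype.card_ne_zero
  ext v
  constructor
  · rintro ⟨hp, i, h1, h2⟩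
    rw [per_iff] at hp
    rw [Set.mem_iUnion]
    refine ⟨i, fun j _ => ?_⟩
    unfold piece
    split_ifs with ha hb
    · exact h2 j ha
    · rw [hb]; exact h1
    · exact hp j
  · rw [Set.mem_iUnion]
    rintro ⟨i, h⟩
    refine ⟨(per_iff k K n v).mpr fun j => ?_, i, ?_, fun j hj => ?_⟩
    · have := h j (Set.mem_univ j)
      unfold piece at this
      split_ifs at this with ha hb
      · rw [Set.mem_singleton_iff.mp this]; exact zero_pow hne
      · rw [Set.mem_singleton_iff.mp this]; exact one_pow _
      · exact this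
    · have := h i (Set.mem_univ i)
      unfold piece at this
      rw [if_neg (lt_irrefl i), if_pos rfl] at this
      exact this
    · have := h j (Set.mem_univ j)
      unfold piece at this
      rw [if_pos hj] at this
      exact this

lemma piece_ncard [IsAlgClosed K] (r : ℕ) {n : ℕ} (hn : 0 < n) (i j : Fin (r + 1)) :
    (piece k K r n i j).ncard = if i < j then Fintype.card k ^ n else 1 := by
  unfold piece
  split_ifs with h1 h2 h3 h4 h5
  · omega
  · exact Set.ncard_singleton _
  · omega
  · exact Set.ncard_singleton _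
  · exact Fix_ncard k K hn
  · omega

lemma cell_card [IsAlgClosed K] (r : ℕ) {n : ℕ} (hn : 0 < n) (i : Fin (r + 1)) :
    (Set.pi Set.univ (piece k K r n i)).ncard = (Fintype.card k ^ n) ^ (r - i.val) := by
  rw [← Nat.card_coe_set_eq, Nat.card_congr (Equiv.Set.univPi _), Nat.card_pi]
  simp only [Nat.card_coe_set_eq, piece_ncard k K r hn]
  rw [Finset.prod_ite, Finset.prod_const, Finset.prod_const_one, mul_one]
  congr 1
  have : Finset.filter (fun j : Fin (r + 1) => i < j) Finset.univ = Finset.Ioi i := by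
    ext j; simp
  rw [this, Fin.card_Ioi]
  omega

lemma cell_finite (r : ℕ) {n : ℕ} (hn : 0 < n) (i : Fin (r + 1)) :
    (Set.pi Set.univ (piece k K r n i)).Finite := by
  apply Set.Finite.pi
  intro j
  unfold piece
  split_ifs
  · exact Set.finite_singleton _
  · exact Set.finite_singleton _
  · exact Fix_finite k K hn

lemma cell_disj (r n : ℕ) : Pairwise (Disjoint on fun i : Fin (r + 1) =>
    Set.pi Set.univ (piece k K r n i)) := by
  have key : ∀ (i i' : Fin (r + 1)) (v : Fin (r + 1) → K),
      v ∈ Set.pi Set.univ (piece k K r n i) → v ∈ Set.pi Set.univ (piece k K r n i') → i < i' →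
      False := by
    intro i i' v h h' hlt
    have h1 := h i (Set.mem_univ i)
    have h2 := h' i (Set.mem_univ i)
    unfold piece at h1 h2
    rw [if_neg (lt_irrefl i), if_pos rfl] at h1
    rw [if_pos hlt] at h2
    exact one_ne_zero ((Set.mem_singleton_iff.mp h1).symm.trans (Set.mem_singleton_iff.mp h2))
  intro i i' hne
  show Disjoint (Set.pi Set.univ (piece k K r n i)) (Set.pi Set.univ (piece k K r n i'))
  rw [Set.disjoint_left]
  intro v h h'
  rcases lt_or_gt_of_ne hne with hlt | hlt
  · exact key i i' v h h' hlt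
  · exact key i' i v h' h hlt

lemma card_plane [IsAlgClosed K] (r : ℕ) {n : ℕ} (hn : 0 < n) :
    (An k K r n).ncard = ∑ j ∈ Finset.range (r + 1), (Fintype.card k ^ n) ^ j := by
  rw [An_eq, Set.ncard_iUnion_of_finite (fun i => cell_finite k K r hn i) (cell_disj k K r n),
    finsum_eq_sum_of_fintype]
  simp only [cell_card k K r hn]
  rw [Finset.sum_range (fun j => (Fintype.card k ^ n) ^ j)]
  rw [← Equiv.sum_comp Fin.revPerm]
  apply Finset.sum_congr rfl
  intro i _
  congr 1
  rw [Fin.revPerm_apply, Fin.val_rev]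
  omega

end plane

end Pool.Agent.W555.TC
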