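import Pool.Agent.W555.TC.Pts

set_option autoImplicit false
set_option maxHeartbeats 1000000

namespace Pool.Agent.W555.TC
open Function

section sgn

variable {k : Type*} [Field k] [Fintype k] {K : Type*} [Field K] [Algebra k K]
  {r : ℕ} (F : MvPolynomial (Fin (r + 1)) k) (l : ℕ)

lemma Nrm_Phi {v : Fin (r + 1) → K} (h : Nrm v) : Nrm (Phi k K v) := by
  obtain ⟨i, h1, h2⟩ := h
  refine ⟨i, ?_, fun j hj => ?_⟩
  · show fr k K (v i) = 1
    rw [h1, map_one]
  · show fr k K (v j) = 0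
    rw [h2 j hj, map_zero]

/-- the value of the form -/
noncomputable def ev (v : Fin (r + 1) → K) : K := MvPolynomial.aeval v F

lemma ev_Phi (v : Fin (r + 1) → K) : ev F (Phi k K v) = fr k K (ev F v) := fr_aeval k K F v

lemma ev_iter (n : ℕ) (v : Fin (r + 1) → K) :
    ev F ((Phi k K)^[n] v) = (fr k K)^[n] (ev F v) := fr_iter_aeval k K F n v

lemma ev_per {n : ℕ} {v : Fin (r + 1) → K} (h : IsPeriodicPt (Phi k K) n v) :
    (fr k K)^[n] (ev F v) = ev F v := by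
  rw [← ev_iter]; congr 1

/-- the unbranched points whose orbit splits in the cover -/
def sp (v : Fin (r + 1) → K) : Prop :=
  (v ∈ periodicPts (Phi k K) ∧ Nrm v ∧ ev F v ≠ 0) ∧
    ∃ y : K, y ^ l = ev F v ∧ (fr k K)^[minimalPeriod (Phi k K) v] y = y

/-- the unbranched points whose orbit does not split in the cover -/
def sm (v : Fin (r + 1) → K) : Prop :=
  (v ∈ periodicPts (Phi k K) ∧ Nrm v ∧ ev F v ≠ 0) ∧
    ¬ ∃ y : K, y ^ l = ev F v ∧ (fr k K)^[minimalPeriod (Phi k K) v] y = y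

lemma dis (v : Fin (r + 1) → K) : ¬ (sp F l v ∧ sm F l v) := fun h => h.2.2 h.1.2

lemma base_Phi {v : Fin (r + 1) → K} (h : v ∈ periodicPts (Phi k K) ∧ Nrm v ∧ ev F v ≠ 0) :
    Phi k K v ∈ periodicPts (Phi k K) ∧ Nrm (Phi k K v) ∧ ev F (Phi k K v) ≠ 0 := by
  obtain ⟨h1, h2, h3⟩ := h
  refine ⟨?_, Nrm_Phi h2, ?_⟩
  · obtain ⟨n, hn, hp⟩ := h1
    exact ⟨n, hn, hp.apply⟩
  · rw [ev_Phi]
    intro h
    exact h3 ((map_eq_zero (fr k K)).mp h)

lemma sp_Phi (v : Fin (r + 1) → K) (h : sp F l v) : sp F l (Phi k K v) := by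
  obtain ⟨hb, y, hy, hf⟩ := h
  refine ⟨base_Phi F hb, fr k K y, ?_, ?_⟩
  · rw [ev_Phi, ← hy, map_pow]
  · rw [minimalPeriod_apply hb.1, ← iterate_succ_apply, iterate_succ_apply', hf]

lemma sm_Phi (v : Fin (r + 1) → K) (h : sm F l v) : sm F l (Phi k K v) := by
  obtain ⟨hb, hn⟩ := h
  refine ⟨base_Phi F hb, ?_⟩
  rintro ⟨y, hy, hf⟩
  apply hn
  rw [minimalPeriod_apply hb.1] at hf
  set d := minimalPeriod (Phi k K) v with hd
  have hd0 : 0 < d := minimalPeriod_pos_of_mem_periodicPts hb.1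
  refine ⟨(fr k K)^[d - 1] y, ?_, ?_⟩
  · rw [← fr_iter_pow, hy, ← ev_iter, ← iterate_succ_apply, Nat.succ_eq_add_one,
      Nat.sub_add_cancel hd0, hd, iterate_minimalPeriod]
  · rw [← iterate_add_apply, add_comm, iterate_add_apply, hf]

variable {l}

/-- roots of unity of order `l` are fixed by Frobenius -/
lemma mu_fix (hq : l ∣ Fintype.card k - 1) {z : K} (hz : z ^ l = 1) (n : ℕ) :
    (fr k K)^[n] z = z := by
  have hq0 : 0 < Fintype.card k := Fintype.card_pos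
  have h1 : l ∣ Fintype.card k ^ n - 1 := by
    have h2 : Fintype.card k - 1 ∣ Fintype.card k ^ n - 1 ^ n := Nat.sub_dvd_pow_sub_pow _ _ n
    rw [one_pow] at h2
    exact hq.trans h2
  obtain ⟨t, ht⟩ := h1
  have h3 : Fintype.card k ^ n = 1 + l * t := by
    have : 0 < Fintype.card k ^ n := pow_pos hq0 n
    omega
  rw [fr_iter, h3, pow_add, pow_one, pow_mul, hz, one_pow, mul_one]

variable [hlp : Fact l.Prime]

/-- Frobenius multiplies an `l`-th root by a root of unity -/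
lemma ratio {n : ℕ} {v : Fin (r + 1) → K} (hv : IsPeriodicPt (Phi k K) n v) {y : K}
    (hy : y ^ l = ev F v) (h0 : ev F v ≠ 0) : ∃ z : K, z ^ l = 1 ∧ (fr k K)^[n] y = z * y := by
  have hy0 : y ≠ 0 := by
    rintro rfl
    apply h0
    rw [← hy, zero_pow hlp.out.ne_zero]
  refine ⟨(fr k K)^[n] y / y, ?_, ?_⟩
  · rw [div_pow, ← fr_iter_pow, hy, ev_per F hv, div_self h0]
  · rw [div_mul_cancel₀ _ hy0]

lemma fr_iter_mul_mul (hq : l ∣ Fintype.card k - 1) {d : ℕ} {y z : K} (hz : z ^ l = 1)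
    (h : (fr k K)^[d] y = z * y) (e : ℕ) : (fr k K)^[d * e] y = z ^ e * y := by
  induction e with
  | zero => simp
  | succ e ih =>
    rw [Nat.mul_succ, add_comm, iterate_add_apply, ih, fr_iter_mul, h, fr_iter_pow,
      mu_fix hq hz]
    ring

/-- the splitting of a point over a constant field extension -/
lemma plus_iff [IsAlgClosed K] (hq : l ∣ Fintype.card k - 1) {n : ℕ} (hn : 0 < n)
    (v : Fin (r + 1) → K) :
    (IsPeriodicPt (Phi k K) n v ∧ (Nrm v ∧ ev F v ≠ 0) ∧ ∃ y : K, y ^ l = ev F v ∧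
        (fr k K)^[n] y = y)
      ↔ (IsPeriodicPt (Phi k K) n v ∧
        (sp F l v ∨ (sm F l v ∧ l ∣ (n / minimalPeriod (Phi k K) v)))) := by
  have hl0 : 0 < l := hlp.out.pos
  constructor
  · rintro ⟨hp, hb, y, hy, hf⟩
    refine ⟨hp, ?_⟩
    have hmem : v ∈ periodicPts (Phi k K) := ⟨n, hn, hp⟩
    by_cases h : ∃ y : K, y ^ l = ev F v ∧ (fr k K)^[minimalPeriod (Phi k K) v] y = y
    · left; exact ⟨⟨hmem, hb⟩, h⟩
    · right
      refine ⟨⟨⟨hmem, hb⟩, h⟩, ?_⟩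
      obtain ⟨z, hz, h1⟩ := ratio F (isPeriodicPt_minimalPeriod (Phi k K) v) hy hb.2
      have hy0 : y ≠ 0 := by
        rintro rfl
        apply hb.2
        rw [← hy, zero_pow hl0.ne']
      have hz1 : z ≠ 1 := by
        rintro rfl
        apply h
        exact ⟨y, hy, by rw [h1, one_mul]⟩
      have h2 := fr_iter_mul_mul hq hz h1 (n / minimalPeriod (Phi k K) v)
      rw [Nat.mul_div_cancel' hp.minimalPeriod_dvd, hf] at h2
      have h3 : z ^ (n / minimalPeriod (Phi k K) v) = 1 := by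
        have h4 : (z ^ (n / minimalPeriod (Phi k K) v) - 1) * y = 0 := by
          linear_combination -h2
        rcases mul_eq_zero.mp h4 with h5 | h5
        · exact sub_eq_zero.mp h5
        · exact (hy0 h5).elim
      have h4 : orderOf z = l := orderOf_eq_prime hz hz1
      rw [← h4]
      exact orderOf_dvd_of_pow_eq_one h3
  · rintro ⟨hp, h⟩
    have hdn := Nat.mul_div_cancel' hp.minimalPeriod_dvd
    rcases h with ⟨hb, y, hy, hf⟩ | ⟨⟨hb, hm⟩, hev⟩
    · refine ⟨hp, hb.2, y, hy, ?_⟩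
      rw [← hdn, iterate_mul]
      exact iterate_fixed hf _
    · refine ⟨hp, hb.2, ?_⟩
      obtain ⟨y, hy⟩ := IsAlgClosed.exists_pow_nat_eq (ev F v) hl0
      refine ⟨y, hy, ?_⟩
      obtain ⟨z, hz, h1⟩ := ratio F (isPeriodicPt_minimalPeriod (Phi k K) v) hy hb.2.2
      have h2 := fr_iter_mul_mul hq hz h1 (n / minimalPeriod (Phi k K) v)
      rw [hdn] at h2
      obtain ⟨t, ht⟩ := hev
      rw [h2, ht, pow_mul, hz, one_pow, one_mul]

/-- the unbranched points over the extension of degree `n` -/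
def Un (n : ℕ) : Set (Fin (r + 1) → K) :=
  {v | IsPeriodicPt (Phi k K) n v ∧ (Nrm v ∧ ev F v ≠ 0)}

/-- the unbranched points over which the cover splits -/
def Sn (l n : ℕ) : Set (Fin (r + 1) → K) :=
  {v | IsPeriodicPt (Phi k K) n v ∧ (Nrm v ∧ ev F v ≠ 0) ∧
    ∃ y : K, y ^ l = ev F v ∧ (fr k K)^[n] y = y}

omit hlp in
lemma Un_eq {n : ℕ} (hn : 0 < n) : (Un F n : Set (Fin (r + 1) → K))
    = {z | IsPeriodicPt (Phi k K) n z ∧ (sp F l z ∨ sm F l z)} := by
  ext v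
  constructor
  · rintro ⟨h1, h2⟩
    refine ⟨h1, ?_⟩
    have hmem : v ∈ periodicPts (Phi k K) := ⟨n, hn, h1⟩
    by_cases h : ∃ y : K, y ^ l = ev F v ∧ (fr k K)^[minimalPeriod (Phi k K) v] y = y
    · left; exact ⟨⟨hmem, h2⟩, h⟩
    · right; exact ⟨⟨hmem, h2⟩, h⟩
  · rintro ⟨h1, h2 | h2⟩
    · exact ⟨h1, h2.1.2⟩
    · exact ⟨h1, h2.1.2⟩

theorem signed [IsAlgClosed K] [DecidableEq (Fin (r + 1) → K)] (hq : l ∣ Fintype.card k - 1)
    {n : ℕ} (hn : 0 < n) :
    ((Un F n : Set (Fin (r + 1) → K)).ncard : ℤ)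
        - l * ((Sn F l n : Set (Fin (r + 1) → K)).ncard : ℤ)
      = -∑ d ∈ n.divisors, (d : ℤ) * (((l : ℤ) - 1) * orb (Phi k K) (sp F l) d
        + ((if l ∣ n / d then (l : ℤ) else 0) - 1) * orb (Phi k K) (sm F l) d) := by
  rw [← signed_count (Phi k K) (sp F l) (sm F l) (fun m hm => fix_finite k K hm) (sp_Phi F l)
    (sm_Phi F l) (dis F l) l hn, Un_eq (l := l) F hn]
  congr 3
  congr 1
  ext v
  exact plus_iff F hq hn v

omit hlp in
theorem unsigned [DecidableEq (Fin (r + 1) → K)] {n : ℕ} (hn : 0 < n) :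
    ((Un F n : Set (Fin (r + 1) → K)).ncard : ℤ)
      = ∑ d ∈ n.divisors, (d : ℤ) * (orb (Phi k K) (sp F l) d + orb (Phi k K) (sm F l) d) := by
  have h := all_count (Phi k K) (sp F l) (sm F l) (fun m hm => fix_finite k K hm) (sp_Phi F l)
    (sm_Phi F l) (dis F l) hn
  rw [Un_eq (l := l) F hn, h]
  push_cast
  apply Finset.sum_congr rfl
  intro d _
  ring

end sgn

end Pool.Agent.W555.TC
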